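import Pool.Agent.H95.L.Z125_UN_Dim2
import Pool.Agent.H95.L.Z125_UN_Sym

/-!
# Properties of schemes over a perfect field and trilinear forms: general statements
-/

set_option autoImplicit false

open CategoryTheory AlgebraicGeometry MvPolynomial Pool.Agent.Y116.UV Pool.Agent.Z125.UN

namespace Pool.Agent.Q193.LT

section

variable {k : Type} [Field k] {P : Sch k → Prop} (hP : Bnd True P)

include hP

/-- From dimension at most `n` to the trilinear forms with a block of at most `n + 2` variables. -/
theorem dim_to_block {n : ℕ} (h : ∀ (A : Type) [CommRing A] [Algebra k A] [Algebra.FiniteType k A],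
    ringKrullDim A ≤ n → P (aff k A)) {a b c : ℕ} (T : Fin a → Fin b → Fin c → k)
    (hm : a ≤ n + 2 ∨ b ≤ n + 2 ∨ c ≤ n + 2) : P (hypS T) := by
  have h2 : ∀ I : Ideal (MvPolynomial (Fin (n + 1)) k),
      P (aff k (MvPolynomial (Fin (n + 1)) k ⧸ I)) := dim_to_closed hP h
  exact of_block hP (fun a b c' hc' T => to_tri hP h2 a b c' hc' T) T hm

/-- All schemes of dimension at most `n`, and the trilinear forms with a block of at most `n + 2`
variables. -/
theorem dim_iff [PerfectField k] (n : ℕ) :
    (∀ X : Sch k, FT True X → topologicalKrullDim X.left ≤ n → P X) ↔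
      ∀ (a b c : ℕ) (T : Fin a → Fin b → Fin c → k), (a ≤ n + 2 ∨ b ≤ n + 2 ∨ c ≤ n + 2) →
        P (hypS T) := by
  constructor
  · intro h a b c T hm
    refine dim_to_block hP (fun A _ _ _ hA => h _ (ft_aff True) ?_) T hm
    rw [topDim_aff]
    exact hA
  · intro h X hX hn
    exact (dim_tri hP n).mpr (fun a b T => h a b (n + 2) T (Or.inr (Or.inr le_rfl))) X hX hn

/-- All smooth schemes of dimension at most `n`, and the trilinear forms with a block of at most
`n + 2` variables. -/
theorem smooth_iff [PerfectField k] (n : ℕ) :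
    (∀ X : Sch k, FT True X → Smooth X.hom → topologicalKrullDim X.left ≤ n → P X) ↔
      ∀ (a b c : ℕ) (T : Fin a → Fin b → Fin c → k), (a ≤ n + 2 ∨ b ≤ n + 2 ∨ c ≤ n + 2) →
        P (hypS T) := by
  rw [← dim_iff hP n]
  exact ⟨fun h X hX hn => dim_smooth hP n h X hX hn, fun h X hX _ hn => h X hX hn⟩

/-- All schemes, and all trilinear forms. -/
theorem all_iff : (∀ X : Sch k, FT True X → P X) ↔
    ∀ (a b c : ℕ) (T : Fin a → Fin b → Fin c → k), P (hypS T) := by
  constructor
  · intro h a b c T
    exact h _ (ft_aff True)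
  · intro h X hX
    exact universal hP.toUni (S := Set.univ) trivial trivial (fun a b c T _ => h a b c T)
      presents_univ X hX

end

end Pool.Agent.Q193.LT
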