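import Pool.Agent.H95.L.Y116_UV_Graph

/-!
# Schemes over the prime fields and tripartite hypergraphs
-/

set_option autoImplicit false

open CategoryTheory AlgebraicGeometry MvPolynomial Pool.Agent.Y116.UV

namespace Pool.Agent.Q193.LT

variable {R : Type} [CommRing R]

/-- Every element of `R` is a quotient of two integers. -/
def Frac (R : Type) [CommRing R] : Prop :=
  ∀ r : R, ∃ d w : ℤ, IsUnit (d : R) ∧ (w : R) = d * r

lemma frac_of_surj (h : Function.Surjective (Int.cast : ℤ → R)) : Frac R := fun r => by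
  obtain ⟨w, hw⟩ := h r
  exact ⟨1, w, by simp, by rw [hw, Int.cast_one, one_mul]⟩

lemma frac_rat : Frac ℚ := fun r => by
  refine ⟨r.den, r.num, ?_, ?_⟩
  · rw [isUnit_iff_ne_zero]
    exact_mod_cast r.den_ne_zero
  · push_cast
    rw [mul_comm]
    exact_mod_cast (Rat.mul_den_eq_num r).symm

/-- integral coefficients -/
lemma presents_int
    (hR : ∀ (A : Type) [CommRing A] [Algebra R A] [Algebra.FiniteType R A],
      ∃ (n : ℕ) (φ : MvPolynomial (Fin n) R →ₐ[R] A) (G : Finset (MvPolynomial (Fin n) R)),
        Function.Surjective φ ∧ RingHom.ker φ = Ideal.span (G : Set (MvPolynomial (Fin n) R)) ∧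
        ∀ g ∈ G, ∀ m, ∃ w : ℤ, (w : R) = coeff m g) : Presents ({0, 1} : Set R) := by
  classical
  apply presents_of
  intro A _ _ _
  obtain ⟨n, φ, G, hs, hK, hG⟩ := hR A
  let w : R → ℤ := fun r => if h : ∃ w : ℤ, (w : R) = r then h.choose else 0
  have hw : ∀ g ∈ G, ∀ m, ((w (coeff m g) : ℤ) : R) = coeff m g := by
    intro g hg m
    have h := hG g hg m
    have h1 : w (coeff m g) = h.choose := dif_pos h
    rw [h1]
    exact h.choose_spec
  let K : ℕ := ∑ g ∈ G, ∑ m ∈ g.support, (w (coeff m g)).natAbs
  let z : (Fin n →₀ ℕ) → MvPolynomial (Fin n) R → Cs K := fun m g =>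
    if h : w (coeff m g) ∈ Finset.Icc (-(K : ℤ)) K then ⟨_, h⟩ else zr K
  have hz : ∀ g ∈ G, ∀ m ∈ g.support, (((z m g).1 : ℤ) : R) = coeff m g := by
    intro g hg m hm
    have h1 : (w (coeff m g)).natAbs ≤ ∑ m ∈ g.support, (w (coeff m g)).natAbs :=
      Finset.single_le_sum (f := fun m : Fin n →₀ ℕ => (w (coeff m g)).natAbs)
        (fun _ _ => Nat.zero_le _) hm
    have h2 : ∑ m ∈ g.support, (w (coeff m g)).natAbs ≤ K :=
      Finset.single_le_sum (f := fun g : MvPolynomial (Fin n) R =>
        ∑ m ∈ g.support, (w (coeff m g)).natAbs) (fun _ _ => Nat.zero_le _) hg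
    have h3 : w (coeff m g) ∈ Finset.Icc (-(K : ℤ)) K := by
      rw [Finset.mem_Icc]
      omega
    have h4 : z m g = ⟨_, h3⟩ := dif_pos h3
    rw [h4]
    exact hw g hg m
  refine ⟨Vs n K, inferInstance, φ.comp (sb R n K), Finset.univ.image (rel K G z), ?_, ?_, ?_⟩
  · intro a
    obtain ⟨p, rfl⟩ := hs a
    refine ⟨rename Sum.inl p, ?_⟩
    change φ (sb R n K (rename Sum.inl p)) = φ p
    congr 1
    rw [sb, aeval_rename]
    exact aeval_X_left_apply _
  · rw [ker_sb K G z hz φ hK, rI]
    congr 1
    simp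
  · intro g hg m
    obtain ⟨k, -, rfl⟩ := Finset.mem_image.mp hg
    exact coeff_ms_mem _ _

/-- Over a noetherian ring in which all elements are quotients of integers, every algebra of finite
type has a presentation by sums of monomials. -/
theorem presents_frac [IsNoetherianRing R] (hR : Frac R) : Presents ({0, 1} : Set R) := by
  classical
  apply presents_int
  intro A _ _ _
  obtain ⟨n, φ, G0, hs, hK0, -⟩ := presents_univ (R := R) A
  choose d w hd hw using hR
  let δ : MvPolynomial (Fin n) R → ℤ := fun g => ∏ m ∈ g.support, d (coeff m g)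
  have hδ : ∀ g, IsUnit ((δ g : ℤ) : R) := by
    intro g
    have h1 : ((δ g : ℤ) : R) = ∏ m ∈ g.support, ((d (coeff m g) : ℤ) : R) := Int.cast_prod _ _
    rw [h1]
    exact Submonoid.prod_mem (IsUnit.submonoid R) fun m _ => hd _
  refine ⟨n, φ, G0.image fun g => C ((δ g : ℤ) : R) * g, hs, ?_, ?_⟩
  · rw [hK0]
    apply le_antisymm
    · rw [Ideal.span_le]
      intro g hg
      have h1 : C ((δ g : ℤ) : R) * g ∈ Ideal.span
          ((G0.image fun g => C ((δ g : ℤ) : R) * g : Finset _) : Set (MvPolynomial (Fin n) R)) :=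
        Ideal.subset_span (Finset.mem_coe.mpr (Finset.mem_image.mpr ⟨g, hg, rfl⟩))
      exact (Ideal.unit_mul_mem_iff_mem _ ((hδ g).map C)).mp h1
    · rw [Ideal.span_le]
      intro g hg
      obtain ⟨g', hg', rfl⟩ := Finset.mem_image.mp (Finset.mem_coe.mp hg)
      exact Ideal.mul_mem_left _ _ (Ideal.subset_span hg')
  · intro g hg m
    obtain ⟨g', hg', rfl⟩ := Finset.mem_image.mp hg
    rw [coeff_C_mul]
    by_cases hm : m ∈ g'.support
    · refine ⟨w (coeff m g') * ∏ m' ∈ g'.support.erase m, d (coeff m' g'), ?_⟩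
      have h1 : δ g' = d (coeff m g') * ∏ m' ∈ g'.support.erase m, d (coeff m' g') :=
        (Finset.mul_prod_erase _ _ hm).symm
      rw [h1, Int.cast_mul, Int.cast_mul, hw]
      ring
    · refine ⟨0, ?_⟩
      rw [notMem_support_iff.mp hm, mul_zero, Int.cast_zero]

/-- The conclusion for the rings all of whose elements are quotients of integers (the prime fields,
the ring of integers, its localizations): a property that is closed under closed-open
decompositions, under the affine bundles of Jouanolou and under passing from `X × 𝔾_m` to `X`, and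
which is true for the affine spaces and for the hypersurfaces of the tripartite hypergraphs, is true
for all (separated) schemes of finite type. -/
theorem universal_frac [IsNoetherianRing R] (hR : Frac R) {sep : Prop} {P : Sch R → Prop}
    (hP : Uni sep P)
    (hH : ∀ (a b c : ℕ) (H : Finset (Fin a × Fin b × Fin c)), P (tripS R H))
    (X : Sch R) (hX : FT sep X) : P X := by
  classical
  refine universal hP (S := {0, 1}) (Or.inl rfl) (Or.inr rfl) ?_ (presents_frac hR) X hX
  intro a b c T hT
  let H : Finset (Fin a × Fin b × Fin c) := Finset.univ.filter fun h => T h.1 h.2.1 h.2.2 = 1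
  have h1 : T = fun i j k => if (i, j, k) ∈ H then (1 : R) else 0 := by
    funext i j k
    have hm : (i, j, k) ∈ H ↔ T i j k = 1 := by
      rw [Finset.mem_filter]
      exact ⟨fun h => h.2, fun h => ⟨Finset.mem_univ _, h⟩⟩
    by_cases h : T i j k = 1
    · rw [if_pos (hm.mpr h), h]
    · rw [if_neg fun h2 => h (hm.mp h2)]
      rcases hT i j k with h2 | h2
      · exact h2
      · exact absurd h2 h
  have h2 := hH a b c H
  unfold tripS Trip at h2
  rw [← tri_ind, ← h1] at h2
  exact h2

end Pool.Agent.Q193.LT
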