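import Pool.Agent.H95.L.N882_UE_Reg
import Pool.Agent.H95.L.Q193_LT_Key
import Pool.Agent.H95.L.Q193_LT_Prime
import Pool.Agent.H95.L.Q282_UK_Bil

/-!
# The conjecture of Tate and Beilinson for all schemes over a finite field and trilinear forms
-/

set_option autoImplicit false

open CategoryTheory AlgebraicGeometry MvPolynomial

namespace Pool.Agent.N882.UE

open Pool.Agent.Y116.UV Pool.Agent.Z125.UN

lemma range_one {k : Type} [CommRing k] (n : ℕ) : Set.range (𝟙 (aff k k) : aff k k ⟶ aff k k).left =
    {x : PrimeSpectrum k | ∃ l, f1 k n l ∉ x.asIdeal} := by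
  have h1 : Set.range (𝟙 (aff k k) : aff k k ⟶ aff k k).left = Set.univ := Set.range_id
  have h2 : {x : PrimeSpectrum k | ∃ l, f1 k n l ∉ x.asIdeal} = Set.univ := by
    rw [Set.eq_univ_iff_forall]
    intro x
    exact ⟨0, fun h => x.isPrime.ne_top ((Ideal.eq_top_iff_one _).mpr h)⟩
  exact h1.trans h2.symm

variable {k Ω : Type} [Field k] [Field Ω] [CharZero Ω] {T : Homology k Ω}

/-- The class of schemes with the property `TB` has the closure properties `Bnd`. -/
theorem bnd_tb (hT : IsTheory T) (h1 : TB T (aff k k)) : Bnd True (TB T) := by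
  have hbun : ∀ (B : Type) [CommRing B] [Algebra k B] [Algebra.FiniteType k B] (m : ℕ)
      (f : Fin m → B) (U : Sch k) (j : U ⟶ aff k B), IsOpenImmersion j.left →
      Set.range j.left = {x : PrimeSpectrum B | ∃ l, f l ∉ x.asIdeal} →
      (TB T U ↔ TB T (aff k (Jou f))) := by
    intro B _ _ _ m f U j hj hr
    obtain ⟨h2, h3⟩ := hT.bundle B m f U j hj hr
    exact ⟨tb_factor hT h2, tb_factor hT h3⟩
  exact
  { iso := fun hX e h2 => tb_factor hT (hT.iso hX e) h2
    total := fun i j hX ht hZ hU => tb_total hT (hT.localization i j hX ht) hZ hU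
    opened := fun i j hX ht hZ hX' => tb_opened hT (hT.localization i j hX ht) hZ hX'
    closed := fun i j hX ht hX' hU => tb_closed hT (hT.localization i j hX ht) hX' hU
    space := fun n => by
      have h2 := (hbun k (n + 1) (f1 k n) (aff k k) (𝟙 _) inferInstance (range_one n)).mp h1
      exact tb_factor hT (hT.iso (ft_aff True) ⟨(affIso (jouOne k n)).symm⟩) h2
    jouanolou := fun B _ _ _ m f U j hj hr h2 => (hbun B m f U j hj hr).mpr h2
    torus := fun B _ _ _ h2 => tb_factor hT (hT.torus B) h2
    bundle := fun B _ _ _ m f U j hj hr h2 => (hbun B m f U j hj hr).mp h2 }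

/-- In a finite field with a prime number of elements every element is an integer. -/
lemma int_surj [Finite k] (h : (Nat.card k).Prime) : Function.Surjective (Int.cast : ℤ → k) := by
  have hc : Fintype k := Fintype.ofFinite k
  obtain ⟨p, hp⟩ := CharP.exists k
  have hpp : p.Prime := CharP.char_is_prime k p
  have hpf : Fact p.Prime := ⟨hpp⟩
  let _ : Algebra (ZMod p) k := ZMod.algebra k p
  have h1 : Nat.card k = p := by
    have h2 := FiniteField.pow_finrank_eq_natCard p k
    have h3 : (p ^ Module.finrank (ZMod p) k).Prime := by rw [h2]; exact h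
    have h4 : Module.finrank (ZMod p) k = 1 := Nat.Prime.eq_one_of_pow h3
    rw [← h2, h4, pow_one]
  have h5 : Function.Bijective (ZMod.castHom (dvd_refl p) k) := by
    rw [Nat.bijective_iff_injective_and_card]
    refine ⟨(ZMod.castHom (dvd_refl p) k).injective, ?_⟩
    rw [Nat.card_zmod, h1]
  intro x
  obtain ⟨y, rfl⟩ := h5.2 x
  obtain ⟨z, rfl⟩ := ZMod.intCast_surjective y
  exact ⟨z, by simp⟩

lemma frac_of_prime [Finite k] (h : (Nat.card k).Prime) : Pool.Agent.Q193.LT.Frac k :=
  Pool.Agent.Q193.LT.frac_of_surj (int_surj h)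

lemma clo_of_bnd {R : Type} [CommRing R] {sep : Prop} {P : Sch R → Prop} (hP : Bnd sep P) :
    Pool.Agent.Q282.UK.Clo sep P where
  iso := hP.iso
  total := hP.total
  opened := hP.opened
  torus := hP.torus

end Pool.Agent.N882.UE
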