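import Pool.Agent.H95.L.Y116_UV_Pres

/-!
# Presentations by sums of at most three monomials

Over `ℤ`, or over a quotient of `ℤ`, every algebra of finite type has a presentation by polynomials each
of which is a sum of at most three monomials with coefficient `1`.
-/

set_option autoImplicit false

open MvPolynomial Pool.Agent.Y116.UV

namespace Pool.Agent.Q282.UZ

variable {R : Type} [CommRing R]

/-- `g` is a sum of at most three different monomials (with coefficient `1`). -/
def Short {V : Type} (g : MvPolynomial V R) : Prop :=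
  ∃ F : Finset (V →₀ ℕ), F.card ≤ 3 ∧ g = ms R F

lemma rename_ms {V W : Type} {f : V → W} (hf : Function.Injective f) [DecidableEq (W →₀ ℕ)]
    (F : Finset (V →₀ ℕ)) : rename f (ms R F) = ms R (F.image (Finsupp.mapDomain f)) := by
  rw [ms, ms, map_sum, Finset.sum_image fun x _ y _ h => Finsupp.mapDomain_injective hf h]
  exact Finset.sum_congr rfl fun x _ => rename_monomial _ _ _

lemma Short.rename {V W : Type} {f : V → W} (hf : Function.Injective f) {g : MvPolynomial V R}
    (h : Short g) : Short (rename f g) := by
  classical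
  obtain ⟨F, hF, rfl⟩ := h
  exact ⟨_, Finset.card_image_le.trans hF, rename_ms hf F⟩

/-- A presentation by sums of at most three monomials. -/
structure SP (R : Type) [CommRing R] (A : Type) [CommRing A] [Algebra R A] where
  V : Type
  fin : Finite V
  φ : MvPolynomial V R →ₐ[R] A
  G : Set (MvPolynomial V R)
  finG : G.Finite
  surj : Function.Surjective φ
  ker : RingHom.ker φ = Ideal.span G
  short : ∀ g ∈ G, Short g

variable {A : Type} [CommRing A] [Algebra R A]

/-- The values of the variables. -/
def SP.marks (P : SP R A) : Set A := Set.range fun v => P.φ (X v)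

section

variable (P : SP R A) (e : P.V) (he : P.φ (X e) = -1) (F : Finset (P.V →₀ ℕ))

/-- the homomorphism with one more variable -/
noncomputable def nφ : MvPolynomial (Option P.V) R →ₐ[R] A :=
  aeval fun o => o.elim (P.φ (ms R F)) fun v => P.φ (X v)

/-- the new relation -/
noncomputable def nr : MvPolynomial (Option P.V) R :=
  X (some e) * X none + rename some (ms R F)

/-- the new set of relations -/
def nG : Set (MvPolynomial (Option P.V) R) := (rename some '' P.G) ∪ {nr P e F}

lemma nφ_rename (q : MvPolynomial P.V R) : nφ P F (rename some q) = P.φ q := by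
  have h : (nφ P F).comp (rename some) = P.φ := by
    apply MvPolynomial.algHom_ext
    intro v
    rw [AlgHom.comp_apply, rename_X, nφ, aeval_X]
    rfl
  exact DFunLike.congr_fun h q

lemma nφ_none : nφ P F (X none) = P.φ (ms R F) := by
  rw [nφ, aeval_X]
  rfl

include he

lemma nφ_nr : nφ P F (nr P e F) = 0 := by
  rw [nr, map_add, map_mul, nφ_rename, nφ_none]
  have h : (X (some e) : MvPolynomial (Option P.V) R) = rename some (X e) := (rename_X _ _).symm
  rw [h, nφ_rename, he]
  ring

lemma nker : RingHom.ker (nφ P F) = Ideal.span (nG P e F) := by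
  apply le_antisymm
  · intro q hq
    let J := Ideal.span (nG P e F)
    let ψ : MvPolynomial (Option P.V) R →ₐ[R] MvPolynomial P.V R :=
      aeval fun o => o.elim (ms R F) X
    have hJ : ∀ r ∈ Ideal.span P.G, rename some r ∈ J := by
      intro r hr
      have h1 : Ideal.map (rename some : MvPolynomial P.V R →ₐ[R] _).toRingHom (Ideal.span P.G) ≤ J := by
        rw [Ideal.map_span]
        exact Ideal.span_mono fun x hx => Or.inl hx
      exact h1 (Ideal.mem_map_of_mem (rename some : MvPolynomial P.V R →ₐ[R] _).toRingHom hr)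
    have h1 : rename some (X e + 1 : MvPolynomial P.V R) ∈ J := by
      apply hJ
      rw [← P.ker, RingHom.mem_ker, map_add, map_one, he]
      ring
    have h2 : Ideal.Quotient.mkₐ R J = ((Ideal.Quotient.mkₐ R J).comp (rename some)).comp ψ := by
      apply MvPolynomial.algHom_ext
      intro o
      rw [AlgHom.comp_apply, AlgHom.comp_apply]
      have h3 : ψ (X o) = o.elim (ms R F) X := aeval_X _ _
      rw [h3]
      match o with
      | none =>
        have h4 : Ideal.Quotient.mkₐ R J (nr P e F) = 0 :=
          Ideal.Quotient.eq_zero_iff_mem.mpr (Ideal.subset_span (Or.inr rfl))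
        have h5 : Ideal.Quotient.mkₐ R J (rename some (X e + 1)) = 0 :=
          Ideal.Quotient.eq_zero_iff_mem.mpr h1
        rw [nr, map_add, map_mul] at h4
        rw [map_add, map_one, rename_X, map_add, map_one] at h5
        change _ = Ideal.Quotient.mkₐ R J (rename some (ms R F))
        linear_combination (-1 : MvPolynomial (Option P.V) R ⧸ J) * h4 +
          (Ideal.Quotient.mkₐ R J (X none)) * h5
      | some v =>
        change _ = Ideal.Quotient.mkₐ R J (rename some (X v))
        rw [rename_X]
    have h3 : q - rename some (ψ q) ∈ J := by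
      rw [← Ideal.Quotient.eq_zero_iff_mem, map_sub, sub_eq_zero]
      exact DFunLike.congr_fun h2 q
    have hle : J ≤ RingHom.ker (nφ P F) := by
      rw [Ideal.span_le]
      rintro x (⟨y, hy, rfl⟩ | rfl)
      · change nφ P F (rename some y) = 0
        rw [nφ_rename]
        have : y ∈ RingHom.ker P.φ := by
          rw [P.ker]
          exact Ideal.subset_span hy
        exact this
      · exact nφ_nr P e he F
    have h4 : nφ P F (q - rename some (ψ q)) = 0 := hle h3
    have h5 : P.φ (ψ q) = 0 := by
      rw [map_sub, nφ_rename] at h4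
      have : nφ P F q = 0 := hq
      rw [this, zero_sub, neg_eq_zero] at h4
      exact h4
    have h6 : rename some (ψ q) ∈ J := hJ _ (by rw [← P.ker]; exact h5)
    have h7 := J.add_mem h3 h6
    rwa [sub_add_cancel] at h7
  · rw [Ideal.span_le]
    rintro x (⟨y, hy, rfl⟩ | rfl)
    · change nφ P F (rename some y) = 0
      rw [nφ_rename]
      have : y ∈ RingHom.ker P.φ := by
        rw [P.ker]
        exact Ideal.subset_span hy
      exact this
    · exact nφ_nr P e he F

omit he in
lemma nr_short (hF : F.card ≤ 2) : Short (nr P e F) := by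
  classical
  let m0 : Option P.V →₀ ℕ := Finsupp.single (some e) 1 + Finsupp.single none 1
  have h0 : m0 ∉ F.image (Finsupp.mapDomain some) := by
    intro h
    obtain ⟨m, _, hm⟩ := Finset.mem_image.mp h
    have h1 := congrArg (fun f : Option P.V →₀ ℕ => f none) hm
    simp only [m0, Finsupp.add_apply] at h1
    rw [Finsupp.mapDomain_of_notMem_range _ _ (by simp), Finsupp.single_eq_of_ne (by simp)] at h1
    simp at h1
  refine ⟨insert m0 (F.image (Finsupp.mapDomain some)), ?_, ?_⟩
  · rw [Finset.card_insert_of_notMem h0]
    have := Finset.card_image_le (s := F) (f := Finsupp.mapDomain (some : P.V → Option P.V))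
    omega
  · rw [nr, rename_ms (Option.some_injective _), ms, ms, Finset.sum_insert h0]
    congr 1
    rw [X, X, monomial_mul, one_mul]

/-- The presentation with one more variable, whose value is the value of a sum of at most two
monomials. -/
noncomputable def SP.next (hF : F.card ≤ 2) : SP R A where
  V := Option P.V
  fin := by
    have := P.fin
    infer_instance
  φ := nφ P F
  G := nG P e F
  finG := (P.finG.image _).union (Set.finite_singleton _)
  surj := fun a => by
    obtain ⟨q, hq⟩ := P.surj a
    exact ⟨rename some q, by rw [nφ_rename, hq]⟩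
  ker := nker P e he F
  short := by
    rintro x (⟨y, hy, rfl⟩ | rfl)
    · exact (P.short y hy).rename (Option.some_injective _)
    · exact nr_short P e F hF

lemma next_marks (hF : F.card ≤ 2) : P.marks ⊆ (P.next e he F hF).marks := by
  rintro _ ⟨v, rfl⟩
  refine ⟨some v, ?_⟩
  change nφ P F (X (some v)) = P.φ (X v)
  rw [← rename_X, nφ_rename]

end

/-- The elements which can be made values of variables in all presentations extending `P0`. -/
def Reach (P0 : SP R A) : Set A :=
  {a | ∀ P : SP R A, P0.marks ⊆ P.marks → ∃ P' : SP R A, P.marks ⊆ P'.marks ∧ a ∈ P'.marks}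

variable {P0 : SP R A}

lemma reach_mark {a : A} (h : a ∈ P0.marks) : a ∈ Reach P0 := fun P hP => ⟨P, le_rfl, hP h⟩

lemma reach_mul (hm : -1 ∈ P0.marks) {a b : A} (ha : a ∈ Reach P0) (hb : b ∈ Reach P0) :
    a * b ∈ Reach P0 := by
  classical
  intro P hP
  obtain ⟨P1, h1, i, hi⟩ := ha P hP
  obtain ⟨P2, h2, j, hj⟩ := hb P1 (hP.trans h1)
  obtain ⟨e, he⟩ := (hP.trans (h1.trans h2)) hm
  obtain ⟨i', hi'⟩ := h2 ⟨i, hi⟩
  let F : Finset (P2.V →₀ ℕ) := {Finsupp.single i' 1 + Finsupp.single j 1}
  have hF : F.card ≤ 2 := by simp [F]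
  refine ⟨P2.next e he F hF, (h1.trans h2).trans (next_marks P2 e he F hF), none, ?_⟩
  change nφ P2 F (X none) = a * b
  rw [nφ_none]
  have h3 : ms R F = X i' * X j := by
    rw [ms, Finset.sum_singleton, X, X, monomial_mul, one_mul]
  rw [h3, map_mul]
  exact congrArg₂ (· * ·) hi' hj

lemma reach_dup (hm : -1 ∈ P0.marks) (P : SP R A) (hP : P0.marks ⊆ P.marks) (i j : P.V) :
    ∃ P' : SP R A, P.marks ⊆ P'.marks ∧ ∃ i' j' : P'.V, i' ≠ j' ∧ P'.φ (X i') = P.φ (X i) ∧
      P'.φ (X j') = P.φ (X j) := by
  classical
  obtain ⟨e, he⟩ := hP hm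
  let F : Finset (P.V →₀ ℕ) := {Finsupp.single j 1}
  have hF : F.card ≤ 2 := by simp [F]
  refine ⟨P.next e he F hF, next_marks P e he F hF, some i, none, fun h => Option.some_ne_none i h,
    ?_, ?_⟩
  · change nφ P F (X (some i)) = _
    rw [← rename_X, nφ_rename]
  · change nφ P F (X none) = _
    rw [nφ_none]
    have h3 : ms R F = X j := by
      rw [ms, Finset.sum_singleton, X]
    rw [h3]

lemma reach_add (hm : -1 ∈ P0.marks) {a b : A} (ha : a ∈ Reach P0) (hb : b ∈ Reach P0) :
    a + b ∈ Reach P0 := by
  classical
  intro P hP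
  obtain ⟨P1, h1, i, hi⟩ := ha P hP
  obtain ⟨P2, h2, j, hj⟩ := hb P1 (hP.trans h1)
  obtain ⟨i', hi'⟩ := h2 ⟨i, hi⟩
  obtain ⟨P3, h3, i3, j3, hne, hi3, hj3⟩ := reach_dup hm P2 (hP.trans (h1.trans h2)) i' j
  obtain ⟨e, he⟩ := (hP.trans (h1.trans (h2.trans h3))) hm
  let F : Finset (P3.V →₀ ℕ) := {Finsupp.single i3 1, Finsupp.single j3 1}
  have hF : F.card ≤ 2 := Finset.card_le_two
  refine ⟨P3.next e he F hF, (h1.trans (h2.trans h3)).trans (next_marks P3 e he F hF), none, ?_⟩
  change nφ P3 F (X none) = a + b
  rw [nφ_none]
  have h4 : ms R F = X i3 + X j3 := by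
    rw [ms, Finset.sum_pair]
    · rfl
    · intro h
      exact hne (Finsupp.single_left_injective one_ne_zero h)
  rw [h4, map_add]
  exact congrArg₂ (· + ·) (hi3.trans hi') (hj3.trans hj)

/-- The presentation of a polynomial ring: one more variable with the value `-1`. -/
noncomputable def base (R : Type) [CommRing R] (n : ℕ) : SP R (MvPolynomial (Fin n) R) where
  V := Option (Fin n)
  fin := inferInstance
  φ := aeval fun o => o.elim (-1) X
  G := {X none + 1}
  finG := Set.finite_singleton _
  surj := fun q => ⟨rename some q, by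
    rw [aeval_rename]
    have : ((fun o : Option (Fin n) => o.elim (-1 : MvPolynomial (Fin n) R) X) ∘ some) = X := rfl
    rw [this, aeval_X_left_apply]⟩
  ker := by
    apply le_antisymm
    · intro q hq
      let J : Ideal (MvPolynomial (Option (Fin n)) R) := Ideal.span {X none + 1}
      let ψ : MvPolynomial (Option (Fin n)) R →ₐ[R] MvPolynomial (Fin n) R :=
        aeval fun o => o.elim (-1) X
      have h2 : Ideal.Quotient.mkₐ R J = ((Ideal.Quotient.mkₐ R J).comp (rename some)).comp ψ := by
        apply MvPolynomial.algHom_ext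
        intro o
        rw [AlgHom.comp_apply, AlgHom.comp_apply]
        have h3 : ψ (X o) = o.elim (-1) X := aeval_X _ _
        rw [h3]
        match o with
        | none =>
          have h4 : Ideal.Quotient.mkₐ R J (X none + 1) = 0 :=
            Ideal.Quotient.eq_zero_iff_mem.mpr (Ideal.subset_span rfl)
          rw [map_add, map_one] at h4
          change _ = Ideal.Quotient.mkₐ R J (rename some (-1))
          rw [map_neg, map_one, map_neg, map_one]
          linear_combination h4
        | some v =>
          change _ = Ideal.Quotient.mkₐ R J (rename some (X v))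
          rw [rename_X]
      have h3 : q - rename some (ψ q) ∈ J := by
        rw [← Ideal.Quotient.eq_zero_iff_mem, map_sub, sub_eq_zero]
        exact DFunLike.congr_fun h2 q
      have h4 : ψ q = 0 := hq
      rw [h4, map_zero, sub_zero] at h3
      exact h3
    · rw [Ideal.span_le, Set.singleton_subset_iff]
      change aeval _ (X none + 1) = 0
      rw [map_add, map_one, aeval_X]
      change (-1 : MvPolynomial (Fin n) R) + 1 = 0
      ring
  short := by
    classical
    rintro g rfl
    refine ⟨{Finsupp.single none 1, 0}, ?_, ?_⟩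
    · exact Finset.card_le_two.trans (by norm_num)
    · rw [ms, Finset.sum_pair]
      · rfl
      · rw [Ne, Finsupp.single_eq_zero]
        exact one_ne_zero

lemma base_neg (n : ℕ) : -1 ∈ (base R n).marks := ⟨none, by
  change aeval _ (X none) = _
  rw [aeval_X]
  rfl⟩

lemma reach_all (hR : Function.Surjective (Int.cast : ℤ → R)) (n : ℕ)
    (f : MvPolynomial (Fin n) R) : f ∈ Reach (base R n) := by
  have hm := base_neg (R := R) n
  have h1 : (1 : MvPolynomial (Fin n) R) ∈ Reach (base R n) := by
    have := reach_mul hm (reach_mark hm) (reach_mark hm)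
    rwa [neg_mul_neg, one_mul] at this
  have h0 : (0 : MvPolynomial (Fin n) R) ∈ Reach (base R n) := by
    have := reach_add hm h1 (reach_mark hm)
    rwa [add_neg_cancel] at this
  have hz : ∀ k : ℤ, ((k : ℤ) : MvPolynomial (Fin n) R) ∈ Reach (base R n) := by
    intro k
    induction k using Int.induction_on with
    | zero => rwa [Int.cast_zero]
    | succ k hk =>
      rw [Int.cast_add, Int.cast_one]
      exact reach_add hm hk h1
    | pred k hk =>
      rw [Int.cast_sub, Int.cast_one, sub_eq_add_neg]
      exact reach_add hm hk (reach_mark hm)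
  induction f using MvPolynomial.induction_on with
  | C r =>
    obtain ⟨k, rfl⟩ := hR r
    have := hz k
    rwa [← map_intCast (C : R →+* MvPolynomial (Fin n) R)] at this
  | add p q hp hq => exact reach_add hm hp hq
  | mul_X p i hp =>
    refine reach_mul hm hp (reach_mark ⟨some i, ?_⟩)
    change aeval _ (X (some i)) = _
    rw [aeval_X]
    rfl

lemma reach_set (hR : Function.Surjective (Int.cast : ℤ → R)) (n : ℕ)
    (F : Finset (MvPolynomial (Fin n) R)) :
    ∃ P : SP R (MvPolynomial (Fin n) R), (base R n).marks ⊆ P.marks ∧ ∀ f ∈ F, f ∈ P.marks := by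
  classical
  induction F using Finset.induction_on with
  | empty => exact ⟨base R n, le_rfl, by simp⟩
  | insert f F _ ih =>
    obtain ⟨P, h1, h2⟩ := ih
    obtain ⟨P', h3, h4⟩ := reach_all hR n f P h1
    refine ⟨P', h1.trans h3, fun g hg => ?_⟩
    rcases Finset.mem_insert.mp hg with rfl | hg
    · exact h4
    · exact h3 (h2 g hg)

/-- Every algebra of finite type has a presentation by sums of at most three monomials. -/
def ShortPresents (R : Type) [CommRing R] : Prop :=
  ∀ (A : Type) [CommRing A] [Algebra R A] [Algebra.FiniteType R A],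
    ∃ (n : ℕ) (φ : MvPolynomial (Fin n) R →ₐ[R] A) (G : Finset (MvPolynomial (Fin n) R)),
      Function.Surjective φ ∧ RingHom.ker φ = Ideal.span (G : Set (MvPolynomial (Fin n) R)) ∧
      ∀ g ∈ G, Short g

lemma SP.toFin (P : SP R A) : ∃ (n : ℕ) (φ : MvPolynomial (Fin n) R →ₐ[R] A)
    (G : Finset (MvPolynomial (Fin n) R)), Function.Surjective φ ∧
    RingHom.ker φ = Ideal.span (G : Set (MvPolynomial (Fin n) R)) ∧ ∀ g ∈ G, Short g := by
  classical
  have := P.fin
  have := Fintype.ofFinite P.V
  let e : P.V ≃ Fin (Fintype.card P.V) := Fintype.equivFin P.V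
  let E : MvPolynomial P.V R ≃ₐ[R] MvPolynomial (Fin (Fintype.card P.V)) R := renameEquiv R e
  refine ⟨Fintype.card P.V, P.φ.comp (E.symm : _ →ₐ[R] _), P.finG.toFinset.image E, ?_, ?_, ?_⟩
  · intro a
    obtain ⟨p, rfl⟩ := P.surj a
    refine ⟨E p, ?_⟩
    change P.φ (E.symm (E p)) = P.φ p
    rw [E.symm_apply_apply]
  · let E1 : MvPolynomial P.V R →+* MvPolynomial (Fin (Fintype.card P.V)) R :=
      (rename e : MvPolynomial P.V R →ₐ[R] _).toRingHom
    have h1 : (P.finG.toFinset.image E : Set (MvPolynomial (Fin (Fintype.card P.V)) R)) =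
        E1 '' P.G := by
      rw [Finset.coe_image, Set.Finite.coe_toFinset]
      rfl
    rw [h1, ← Ideal.map_span, ← P.ker]
    ext p
    constructor
    · intro hp
      have h2 : E.symm p ∈ RingHom.ker P.φ := hp
      have h3 := Ideal.mem_map_of_mem E1 h2
      have h4 : E1 (E.symm p) = p := E.apply_symm_apply p
      rwa [h4] at h3
    · intro hp
      obtain ⟨q, hq, rfl⟩ := (Ideal.mem_map_iff_of_surjective E1
        (fun p => ⟨E.symm p, E.apply_symm_apply p⟩)).mp hp
      change P.φ (E.symm (E q)) = 0
      rw [E.symm_apply_apply]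
      exact hq
  · intro g hg
    obtain ⟨g, hg', rfl⟩ := Finset.mem_image.mp hg
    exact (P.short g (P.finG.mem_toFinset.mp hg')).rename e.injective

theorem short_presents [IsNoetherianRing R] (hR : Function.Surjective (Int.cast : ℤ → R)) :
    ShortPresents R := by
  classical
  intro A _ _ _
  obtain ⟨n, π, hπ⟩ := Algebra.FiniteType.iff_quotient_mvPolynomial''.mp
    (inferInstance : Algebra.FiniteType R A)
  obtain ⟨F, hF⟩ := (isNoetherianRing_iff_ideal_fg _).mp
    (inferInstance : IsNoetherianRing (MvPolynomial (Fin n) R)) (RingHom.ker π)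
  obtain ⟨P, hP0, hP⟩ := reach_set hR n F
  have hne : Nonempty P.V := by
    obtain ⟨v, _⟩ := hP0 (base_neg n)
    exact ⟨v⟩
  choose! v hv using hP
  let Q : SP R A :=
    { V := P.V
      fin := P.fin
      φ := π.comp P.φ
      G := P.G ∪ (fun f => X (v f)) '' (F : Set (MvPolynomial (Fin n) R))
      finG := P.finG.union (F.finite_toSet.image _)
      surj := fun a => by
        obtain ⟨b, rfl⟩ := hπ a
        obtain ⟨c, rfl⟩ := P.surj b
        exact ⟨c, rfl⟩
      ker := by
        have h1 : RingHom.ker (π.comp P.φ) = Ideal.comap (P.φ : MvPolynomial P.V R →+* _)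
            (RingHom.ker π) := rfl
        have h2 : RingHom.ker π = Ideal.map (P.φ : MvPolynomial P.V R →+* _)
            (Ideal.span ((fun f => X (v f)) '' (F : Set (MvPolynomial (Fin n) R)))) := by
          rw [Ideal.map_span, ← hF, Set.image_image]
          congr 1
          ext x
          constructor
          · intro hx
            exact ⟨x, hx, hv x hx⟩
          · rintro ⟨y, hy, rfl⟩
            have : (P.φ : MvPolynomial P.V R →+* _) (X (v y)) = y := hv y hy
            change (P.φ : MvPolynomial P.V R →+* MvPolynomial (Fin n) R) (X (v y)) ∈ _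
            rw [this]
            exact hy
        have h3 : RingHom.ker (P.φ : MvPolynomial P.V R →+* MvPolynomial (Fin n) R) =
            Ideal.span P.G := P.ker
        rw [h1, h2, Ideal.comap_map_of_surjective'
          (P.φ : MvPolynomial P.V R →+* MvPolynomial (Fin n) R) P.surj, Ideal.span_union, sup_comm,
          h3]
      short := by
        rintro g (hg | ⟨f, _, rfl⟩)
        · exact P.short g hg
        · refine ⟨{Finsupp.single (v f) 1}, by simp, ?_⟩
          rw [ms, Finset.sum_singleton]
          rfl }
  exact Q.toFin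

theorem short_int : ShortPresents ℤ := short_presents fun x => ⟨x, rfl⟩

end Pool.Agent.Q282.UZ
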