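import Pool.Agent.H95.L.Q282_UZ_Fam
import Pool.Agent.H95.L.Q282_UZ_Short

/-!
# Systems of bilinear equations with at most three terms

Every property of schemes of finite type over `ℤ` which is closed under closed-open decompositions and
descends from `X × 𝔾_m` to `X` is decided by the systems of bilinear equations in which every equation
is a sum of at most three monomials `x_i y_j`.
-/

set_option autoImplicit false

open CategoryTheory CategoryTheory.Limits AlgebraicGeometry MvPolynomial Pool.Agent.Y116.UV
  Pool.Agent.Q282.UK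

namespace Pool.Agent.Q282.UZ

variable {R : Type} [CommRing R]

/-- The bilinear form `∑_{(i, j) ∈ E} x_i y_j`. -/
noncomputable def few (R : Type) [CommRing R] {β γ : Type} (E : Finset (β × γ)) :
    MvPolynomial (β ⊕ γ) R :=
  ∑ e ∈ E, X (Sum.inl e.1) * X (Sum.inr e.2)

/-- The closed subscheme of the affine space of dimension `a + b` given by the bilinear equations
`∑_{(i, j) ∈ E_l} x_i y_j = 0` for all `l`. -/
noncomputable def sysS (R : Type) [CommRing R] {a b c : ℕ} (E : Fin c → Finset (Fin a × Fin b)) :
    Sch R :=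
  aff R (MvPolynomial (Fin a ⊕ Fin b) R ⧸ Ideal.span (Set.range fun l => few R (E l)))

/-- `P` holds for all systems of bilinear equations such that every equation has at most three terms (and
coefficients `1`). -/
def ForThreeTerms (P : Sch R → Prop) : Prop :=
  ∀ (a b c : ℕ) (E : Fin c → Finset (Fin a × Fin b)), (∀ l, (E l).card ≤ 3) → P (sysS R E)

/-- a bilinear form with at most three terms -/
def IsFew {β γ : Type} (f : MvPolynomial (β ⊕ γ) R) : Prop :=
  ∃ E : Finset (β × γ), E.card ≤ 3 ∧ f = few R E

lemma few_zero {β γ : Type} : IsFew (0 : MvPolynomial (β ⊕ γ) R) := ⟨∅, by simp, by simp [few]⟩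

lemma few_single {β γ : Type} (i : β) (j : γ) :
    IsFew (X (Sum.inl i) * X (Sum.inr j) : MvPolynomial (β ⊕ γ) R) :=
  ⟨{(i, j)}, by simp, by simp [few]⟩

lemma few_pair {β γ : Type} (i : β) (j : γ) (i' : β) (j' : γ) (h : ¬ (i = i' ∧ j = j')) :
    IsFew (X (Sum.inl i) * X (Sum.inr j) + X (Sum.inl i') * X (Sum.inr j') :
      MvPolynomial (β ⊕ γ) R) := by
  classical
  refine ⟨{(i, j), (i', j')}, Finset.card_le_two.trans (by norm_num), ?_⟩
  rw [few, Finset.sum_pair]
  intro h2
  exact h ⟨congrArg Prod.fst h2, congrArg Prod.snd h2⟩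

/-- Renaming the variables. -/
noncomputable def fewRename {β γ κ : Type} {a b c : ℕ} [DecidableEq β] [DecidableEq γ]
    (e₁ : Fin a ≃ β) (e₂ : Fin b ≃ γ) (e₃ : Fin c ≃ κ) (E : κ → Finset (β × γ)) :
    (MvPolynomial (Fin a ⊕ Fin b) R ⧸ Ideal.span (Set.range fun l =>
      few R ((E (e₃ l)).map (Equiv.prodCongr e₁.symm e₂.symm).toEmbedding))) ≃ₐ[R]
    (MvPolynomial (β ⊕ γ) R ⧸ Ideal.span (Set.range fun k => few R (E k))) :=
  Ideal.quotientEquivAlg _ _ (renameEquiv R (Equiv.sumCongr e₁ e₂)) (by
    rw [Ideal.map_span, ← Set.range_comp]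
    have h : (fun k => few R (E k)) ∘ e₃ = ((renameEquiv R (Equiv.sumCongr e₁ e₂) :
        MvPolynomial (Fin a ⊕ Fin b) R →+* MvPolynomial (β ⊕ γ) R)) ∘ (fun l =>
          few R ((E (e₃ l)).map (Equiv.prodCongr e₁.symm e₂.symm).toEmbedding)) := by
      funext l
      simp only [Function.comp_apply, RingHom.coe_coe, few, map_sum, map_mul,
        renameEquiv_apply, rename_X, Equiv.sumCongr_apply, Sum.map_inl, Sum.map_inr,
        Finset.sum_map, Equiv.coe_toEmbedding, Equiv.prodCongr_apply, Prod.map_fst, Prod.map_snd,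
        Equiv.apply_symm_apply]
    have h2 : Set.range (fun k => few R (E k)) = Set.range ((fun k => few R (E k)) ∘ e₃) :=
      (e₃.surjective.range_comp _).symm
    rw [h2, h])

section

variable {sep : Prop} {P : Sch R → Prop} (hP : Clo sep P) (hH : ForThreeTerms P)

include hP hH

lemma clo_few {β γ κ : Type} [Fintype β] [Fintype γ] [Fintype κ] (f : κ → MvPolynomial (β ⊕ γ) R)
    (hf : ∀ k, IsFew (f k)) :
    P (aff R (MvPolynomial (β ⊕ γ) R ⧸ Ideal.span (Set.range f))) := by
  classical
  choose E hE hT using hf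
  have h2 : f = fun k => few R (E k) := funext hT
  rw [h2]
  exact clo_alg hP (fewRename (Fintype.equivFin β).symm (Fintype.equivFin γ).symm
    (Fintype.equivFin κ).symm E) (hH _ _ _ _ fun l => by rw [Finset.card_map]; exact hE _)

omit hP hH in
lemma eqs_few {n D : ℕ} (hD : 1 ≤ D) (G : Finset (MvPolynomial (Fin n) R))
    (hd : ∀ g ∈ G, ∀ m ∈ g.support, m.degree ≤ D) (hc : ∀ g ∈ G, Short g)
    (k : Mon n D ⊕ (Mon n D × Fin n) ⊕ G) : IsFew (eqs hD G k) := by
  classical
  rcases k with m | ⟨m, i⟩ | g
  · rw [eqs_lin]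
    split_ifs with h
    · exact few_zero
    · exact few_pair _ _ _ _ fun h2 => h h2.1
  · rw [eqs_mul]
    split_ifs with h
    · exact few_pair _ _ _ _ fun h2 => me_ne hD i h2.2
    · exact few_zero
  · obtain ⟨F, hF, hg⟩ := hc g.1 g.2
    by_cases htriv : Nontrivial R
    · have hsupp : ∀ m, m ∈ F → m.degree ≤ D := by
        intro m hm
        apply hd g.1 g.2
        rw [mem_support_iff, hg, coeff_ms, if_pos hm]
        exact one_ne_zero
      let s : Finset (Mon n D) := Finset.univ.filter fun m => m.1 ∈ F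
      have hs : s.card ≤ 3 := by
        refine le_trans ?_ hF
        refine Finset.card_le_card_of_injOn (fun m => m.1) ?_ ?_
        · intro m hm
          exact (Finset.mem_filter.mp hm).2
        · intro m _ m' _ h
          exact Subtype.ext h
      refine ⟨s ×ˢ {mo n D}, ?_, ?_⟩
      · rw [Finset.card_product, Finset.card_singleton, mul_one]
        exact hs
      · change ∑ m : Mon n D, C (coeff m.1 g.1) * (uu R m * vv R (mo n D)) = _
        rw [few, Finset.sum_product, Finset.sum_filter]
        apply Finset.sum_congr rfl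
        intro m _
        rw [Finset.sum_singleton, hg, coeff_ms]
        split_ifs
        · rw [C_1, one_mul]
          rfl
        · rw [C_0, zero_mul]
    · have : Subsingleton R := not_nontrivial_iff_subsingleton.mp htriv
      exact ⟨∅, by simp, Subsingleton.elim _ _⟩

lemma three_cone {A : Type} [CommRing A] [Algebra R A] [Algebra.FiniteType R A] {n D : ℕ} (hD : 1 ≤ D)
    (G : Finset (MvPolynomial (Fin n) R)) (φ : MvPolynomial (Fin n) R →ₐ[R] A)
    (hd : ∀ g ∈ G, ∀ m ∈ g.support, m.degree ≤ D) (hs : Function.Surjective φ)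
    (hK : RingHom.ker φ = Ideal.span (G : Set (MvPolynomial (Fin n) R)))
    (hc : ∀ g ∈ G, Short g) : P (aff R A) := by
  classical
  have hG : ∀ g ∈ G, φ g = 0 := by
    intro g hg
    have : g ∈ RingHom.ker φ := by
      rw [hK]
      exact Ideal.subset_span hg
    exact this
  have hA : P (aff R (Cone hD G)) := clo_few hP hH (eqs hD G) (eqs_few hD G hd hc)
  let f' : Option (Mon n D ⊕ (Mon n D × Fin n) ⊕ G) → UVRing R n D := fun k =>
    k.elim (uu R (mo n D) * vv R (mo n D)) (eqs hD G)
  have h2 : P (aff R (UVRing R n D ⧸ Ideal.span (Set.range f'))) := by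
    apply clo_few hP hH f'
    rintro (_ | k)
    · exact few_single _ _
    · exact eqs_few hD G hd hc k
  have h3 : Ideal.span (Set.range f') =
      eqI hD G ⊔ Ideal.span {uu R (mo n D) * vv R (mo n D)} := by
    rw [eqI, ← Ideal.span_union]
    congr 1
    ext x
    constructor
    · rintro ⟨_ | k, rfl⟩
      · exact Or.inr rfl
      · exact Or.inl ⟨k, rfl⟩
    · rintro (⟨k, rfl⟩ | rfl)
      · exact ⟨some k, rfl⟩
      · exact ⟨none, rfl⟩
  rw [h3] at h2
  have h4 : P (aff R (Cone hD G ⧸ Ideal.span {cw hD G})) := by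
    have e := (DoubleQuot.quotQuotEquivQuotSupₐ R (eqI hD G)
      (Ideal.span {uu R (mo n D) * vv R (mo n D)})).symm
    have h5 := clo_alg (B := Cone hD G ⧸ Ideal.map (Ideal.Quotient.mkₐ R (eqI hD G))
      (Ideal.span {uu R (mo n D) * vv R (mo n D)})) hP e h2
    have h6 : Ideal.map (Ideal.Quotient.mkₐ R (eqI hD G))
        (Ideal.span {uu R (mo n D) * vv R (mo n D)}) = Ideal.span {cw hD G} := by
      rw [Ideal.map_span, Set.image_singleton]
      rfl
    rw [← h6]
    exact h5
  have h5 : P (aff R (LCone hD G)) := hP.opened _ _ (ft_aff sep) (triple_away (cw hD G)) h4 hA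
  have h6 : Algebra.FiniteType R (LCone hD G) :=
    Algebra.FiniteType.trans (S := Cone hD G) inferInstance inferInstance
  have h7 := ft_laurent (R := R) A
  exact hP.torus A (hP.torus _ (clo_alg hP (coneEquiv hD G φ hG hd hs hK) h5))

/-- The affine case. -/
theorem three_affine (hS : ShortPresents R) (A : Type) [CommRing A] [Algebra R A]
    [Algebra.FiniteType R A] : P (aff R A) := by
  classical
  obtain ⟨n, φ, G, hs, hK, hc⟩ := hS A
  let D : ℕ := 1 + ∑ g ∈ G, ∑ m ∈ g.support, m.degree
  refine three_cone hP hH (D := D) (by omega) G φ ?_ hs hK hc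
  intro g hg m hm
  have h1 : m.degree ≤ ∑ m ∈ g.support, m.degree :=
    Finset.single_le_sum (f := fun m : Fin n →₀ ℕ => m.degree) (fun _ _ => Nat.zero_le _) hm
  have h2 : ∑ m ∈ g.support, m.degree ≤ ∑ g ∈ G, ∑ m ∈ g.support, m.degree :=
    Finset.single_le_sum (f := fun g : MvPolynomial (Fin n) R => ∑ m ∈ g.support, m.degree)
      (fun _ _ => Nat.zero_le _) hg
  omega

end

/-- A property which is closed under closed-open decompositions and under passing from `X × 𝔾_m` to
`X` is true for every (separated) scheme of finite type if and only if it is true for the systems of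
bilinear equations with at most three terms in every equation. -/
theorem three_iff {sep : Prop} {P : Sch R → Prop} (hR : ShortPresents R) (hP : Clo sep P) :
    (∀ X : Sch R, FT sep X → P X) ↔ ForThreeTerms P := by
  constructor
  · intro h a b c E _
    exact h _ (ft_aff sep)
  · intro h X hX
    exact of_affine' hP.iso hP.total (fun A _ _ _ => three_affine hP h hR A) X hX

end Pool.Agent.Q282.UZ
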