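import Pool.Agent.H95.L.Z125_UN_Dim
import Pool.Agent.H95.L.Y116_UV_Graph

/-!
# Smooth schemes of dimension at most `n` and trilinear forms with `n + 2` variables in the third
block
-/

set_option autoImplicit false

open CategoryTheory AlgebraicGeometry MvPolynomial Pool.Agent.Y116.UV

namespace Pool.Agent.Z125.UN

section smooth

variable {k : Type} [Field k]

/-- A domain of finite type over a perfect field is generically smooth. -/
lemma exists_smooth [PerfectField k] (B : Type) [CommRing B] [IsDomain B] [Algebra k B]
    [Algebra.FiniteType k B] : ∃ w : B, w ≠ 0 ∧ Algebra.Smooth k (Localization.Away w) := by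
  have h1 : Algebra.FinitePresentation k B := Algebra.FinitePresentation.of_finiteType.mp
    inferInstance
  have h2 : (⊥ : Ideal B).IsPrime := Ideal.isPrime_bot
  let K := FractionRing B
  have h3 : Algebra.FormallySmooth k K := Algebra.FormallySmooth.of_perfectField
  have h4 : Algebra.IsSmoothAt k (⊥ : Ideal B) := by
    have hl : IsLocalization (⊥ : Ideal B).primeCompl K := by
      have h5 : (⊥ : Ideal B).primeCompl = nonZeroDivisors B := by
        ext x
        rw [mem_nonZeroDivisors_iff_ne_zero]
        rfl
      rw [h5]
      infer_instance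
    refine Algebra.FormallySmooth.of_equiv ((IsLocalization.algEquiv (⊥ : Ideal B).primeCompl K
      (Localization.AtPrime (⊥ : Ideal B))).restrictScalars k)
  obtain ⟨w, hw, hs⟩ := Algebra.IsSmoothAt.exists_notMem_smooth k (⊥ : Ideal B)
  exact ⟨w, fun h => hw (by rw [h]; exact Ideal.zero_mem _), hs⟩

lemma smooth_aff {A : Type} [CommRing A] [Algebra k A] (h : Algebra.Smooth k A) :
    Smooth (aff k A).hom := by
  change Smooth (Spec.map (CommRingCat.ofHom (algebraMap k A)))
  rw [HasRingHomProperty.Spec_iff (P := @Smooth)]
  exact RingHom.smooth_algebraMap.mpr h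

lemma smooth_hypS {a b c : ℕ} (T : Fin a → Fin b → Fin c → k) : Smooth (hypS T).hom :=
  smooth_aff (hyp_smooth T)

lemma topDim_aff (A : Type) [CommRing A] [Algebra k A] :
    topologicalKrullDim (aff k A).left = ringKrullDim A :=
  PrimeSpectrum.topologicalKrullDim_eq_ringKrullDim A

lemma dim_away {A : Type} [CommRing A] (w : A) :
    ringKrullDim (Localization.Away w) ≤ ringKrullDim A := by
  rw [← PrimeSpectrum.topologicalKrullDim_eq_ringKrullDim,
    ← PrimeSpectrum.topologicalKrullDim_eq_ringKrullDim]
  exact (PrimeSpectrum.localization_away_isOpenEmbedding (Localization.Away w)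
    w).isInducing.topologicalKrullDim_le

end smooth

section

variable {k : Type} [Field k] {sep : Prop} {P : Sch k → Prop} (hP : Bnd sep P)

include hP

/-- From smooth affine schemes of dimension at most `n` to all affine schemes of dimension at most
`n`. -/
lemma of_smooth [PerfectField k] {n : ℕ} (h : ∀ (A : Type) [CommRing A] [Algebra k A]
    [Algebra.Smooth k A], ringKrullDim A ≤ n → P (aff k A)) (A : Type) [CommRing A] [Algebra k A]
    [Algebra.FiniteType k A] (hA : ringKrullDim A ≤ n) : P (aff k A) := by
  refine noeth hP (fun B _ _ hB => p_empty hP B hB) fun p hp => ?_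
  obtain ⟨w, hw, hs⟩ := exists_smooth (k := k) (A ⧸ p)
  exact ⟨w, hw, h _ ((dim_away w).trans ((ringKrullDim_quotient_le p).trans hA))⟩

/-- From affine schemes of dimension at most `n` to all schemes of dimension at most `n`. -/
lemma of_affine_dim {n : ℕ} (h : ∀ (A : Type) [CommRing A] [Algebra k A]
    [Algebra.FiniteType k A], ringKrullDim A ≤ n → P (aff k A)) (X : Sch k) (hX : FT sep X)
    (hn : topologicalKrullDim X.left ≤ n) : P X := by
  refine of_affine' (P := fun X => topologicalKrullDim X.left ≤ n → P X) (sep := sep) ?_ ?_ ?_ X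
    hX hn
  · intro X Y hX e hPX hY
    refine hP.iso hX e (hPX ?_)
    obtain ⟨e⟩ := e
    let f := (Over.forget _).mapIso e
    exact (Topology.IsInducing.topologicalKrullDim_le
      (Scheme.homeoOfIso f).isInducing).trans hY
  · intro Z X U i j hX ht hZ hU hn
    refine hP.total i j hX ht (hZ ?_) (hU ?_)
    · have h1 := (have := ht.closed; i.left.isClosedEmbedding.isInducing)
      exact h1.topologicalKrullDim_le.trans hn
    · have h1 := (have := ht.opened; j.left.isOpenEmbedding.isInducing)
      exact h1.topologicalKrullDim_le.trans hn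
  · intro A _ _ _ hA
    rw [topDim_aff] at hA
    exact h A hA

/-- The conclusion for dimension `n` and trilinear forms with `n + 2` variables in the third block -/
theorem dim_tri [PerfectField k] (n : ℕ) :
    (∀ (X : Sch k), FT sep X → topologicalKrullDim X.left ≤ n → P X) ↔
      ∀ (a b : ℕ) (T : Fin a → Fin b → Fin (n + 2) → k), P (hypS T) := by
  rw [show (∀ (a b : ℕ) (T : Fin a → Fin b → Fin (n + 2) → k), P (hypS T)) ↔
    ∀ (I : Ideal (MvPolynomial (Fin (n + 1)) k)), P (aff k (_ ⧸ I)) from (graded hP (n + 1)).symm]
  constructor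
  · intro h
    refine dim_to_closed hP fun A _ _ _ hA => h _ (ft_aff sep) ?_
    rw [topDim_aff]
    exact hA
  · intro h
    exact of_affine_dim hP (closed_to_dim hP h)

/-- smooth schemes of dimension at most `n` are sufficient -/
theorem dim_smooth [PerfectField k] (n : ℕ)
    (h : ∀ (X : Sch k), FT sep X → Smooth X.hom → topologicalKrullDim X.left ≤ n → P X)
    (X : Sch k) (hX : FT sep X) (hn : topologicalKrullDim X.left ≤ n) : P X := by
  refine of_affine_dim hP (of_smooth hP fun A _ _ _ hA => h _ (ft_aff sep)
    (smooth_aff inferInstance) ?_) X hX hn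
  rw [topDim_aff]
  exact hA

end

end Pool.Agent.Z125.UN
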