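import Pool.Agent.H95.L.Y116_UV_Ring

/-!
# Every algebra of finite type is given by bilinear equations

Let `A` be an algebra of finite type over a noetherian ring `R`. There is a system of bilinear forms
in `u`, `v` such that the open part `u_0 v_0 ≠ 0` of its zero set is `Spec A × 𝔾_m × 𝔾_m`.
-/

set_option autoImplicit false

open MvPolynomial

namespace Pool.Agent.Y116.UV

variable {R : Type} [CommRing R]

/-- The monomials of degree at most `D`. -/
abbrev Mon (n D : ℕ) : Type := {m : Fin n →₀ ℕ // m.degree ≤ D}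

instance (n D : ℕ) : Finite (Mon n D) := (Finsupp.finite_of_degree_le D).to_subtype

noncomputable instance (n D : ℕ) : Fintype (Mon n D) := Fintype.ofFinite _

/-- the monomial `1` -/
def mo (n D : ℕ) : Mon n D := ⟨0, by simp⟩

/-- the monomial `x_i` -/
noncomputable def me {n D : ℕ} (hD : 1 ≤ D) (i : Fin n) : Mon n D :=
  ⟨Finsupp.single i 1, by rw [Finsupp.degree_single]; exact hD⟩

/-- the value of a homomorphism on a polynomial of degree at most `D` -/
lemma hom_eq_sum {n D : ℕ} {B : Type} [CommRing B] [Algebra R B]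
    (χ : MvPolynomial (Fin n) R →ₐ[R] B) (g : MvPolynomial (Fin n) R)
    (hg : ∀ m ∈ g.support, m.degree ≤ D) :
    χ g = ∑ m : Mon n D, algebraMap R B (coeff m.1 g) * χ (monomial m.1 1) := by
  classical
  have h1 : χ g = ∑ m ∈ g.support, algebraMap R B (coeff m g) * χ (monomial m 1) := by
    conv_lhs => rw [g.as_sum]
    rw [map_sum]
    apply Finset.sum_congr rfl
    intro m _
    rw [← χ.commutes, ← map_mul, algebraMap_eq, C_mul_monomial, mul_one]
  rw [h1]
  symm
  let s : Finset (Mon n D) := Finset.univ.filter (fun m => m.1 ∈ g.support)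
  rw [← Finset.sum_subset (Finset.subset_univ s)]
  · refine Finset.sum_bij (fun m _ => m.1) ?_ ?_ ?_ ?_
    · intro m hm
      exact (Finset.mem_filter.mp hm).2
    · intro m _ m' _ h
      exact Subtype.ext h
    · intro m hm
      exact ⟨⟨m, hg m hm⟩, Finset.mem_filter.mpr ⟨Finset.mem_univ _, hm⟩, rfl⟩
    · intro m _
      rfl
  · intro m _ hm
    have : m.1 ∉ g.support := fun h => hm (Finset.mem_filter.mpr ⟨Finset.mem_univ _, h⟩)
    rw [notMem_support_iff.mp this, map_zero, zero_mul]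

section

variable {n D : ℕ} (hD : 1 ≤ D) (G : Finset (MvPolynomial (Fin n) R))

/-- the ring of polynomials in `u`, `v` -/
abbrev UVRing (R : Type) [CommRing R] (n D : ℕ) : Type := MvPolynomial (Mon n D ⊕ Mon n D) R

/-- the variables -/
noncomputable def uu (R : Type) [CommRing R] {n D : ℕ} (m : Mon n D) : UVRing R n D := X (Sum.inl m)

/-- the variables -/
noncomputable def vv (R : Type) [CommRing R] {n D : ℕ} (m : Mon n D) : UVRing R n D := X (Sum.inr m)

/-- the bilinear equations -/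
noncomputable def eqs : Mon n D ⊕ (Mon n D × Fin n) ⊕ G → UVRing R n D
  | Sum.inl m => if m = mo n D then 0 else
      uu R m * vv R (mo n D) + uu R (mo n D) * vv R m
  | Sum.inr (Sum.inl (m, i)) =>
      if h : (m.1 + Finsupp.single i 1).degree ≤ D then
        uu R m * vv R (me hD i) + uu R ⟨_, h⟩ * vv R (mo n D) else 0
  | Sum.inr (Sum.inr g) => ∑ m : Mon n D, C (coeff m.1 g.1) * (uu R m * vv R (mo n D))

lemma eqs_lin (m : Mon n D) : eqs hD G (Sum.inl m) = if m = mo n D then 0 else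
    uu R m * vv R (mo n D) + uu R (mo n D) * vv R m := rfl

lemma eqs_mul (m : Mon n D) (i : Fin n) : eqs hD G (Sum.inr (Sum.inl (m, i))) =
    if h : (m.1 + Finsupp.single i 1).degree ≤ D then
      uu R m * vv R (me hD i) + uu R ⟨_, h⟩ * vv R (mo n D) else 0 := rfl

lemma me_ne (i : Fin n) : me hD i ≠ mo n D := by
  intro h
  have h1 : Finsupp.single i 1 = (0 : Fin n →₀ ℕ) := congrArg Subtype.val h
  exact one_ne_zero (Finsupp.single_eq_zero.mp h1)

lemma eqs_mem {S : Set R} (h0 : 0 ∈ S) (h1 : 1 ∈ S)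
    (hS : ∀ g ∈ G, ∀ m, coeff m g ∈ S) (k : Mon n D ⊕ (Mon n D × Fin n) ⊕ G) :
    eqs hD G k ∈ bilIn S (Mon n D) (Mon n D) := by
  rcases k with m | ⟨m, i⟩ | g
  · rw [eqs_lin]
    split_ifs with h
    · exact zero_mem_bilIn h0
    · exact pair_mem h0 h1 _ _ _ _ fun h2 => h h2.1
  · rw [eqs_mul]
    split_ifs with h
    · exact pair_mem h0 h1 _ _ _ _ fun h2 => me_ne hD i h2.2
    · exact zero_mem_bilIn h0
  · exact linear_mem h0 (fun m : Mon n D => coeff m.1 g.1) (fun m => hS g.1 g.2 m.1) _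

/-- the ideal of the bilinear equations -/
noncomputable def eqI : Ideal (UVRing R n D) := Ideal.span (Set.range (eqs hD G))

variable {A : Type} [CommRing A] [Algebra R A] (φ : MvPolynomial (Fin n) R →ₐ[R] A)

/-- `A[s, 1/s][t, 1/t]` -/
abbrev Tor (A : Type) [CommRing A] : Type := LaurentPolynomial (LaurentPolynomial A)

/-- the class of a monomial in `A` -/
noncomputable def xa (m : Fin n →₀ ℕ) : A := φ (monomial m 1)

lemma xa_add (m m' : Fin n →₀ ℕ) : xa φ (m + m') = xa φ m * xa φ m' := by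
  rw [xa, xa, xa, ← map_mul, monomial_mul, one_mul]

lemma xa_zero : xa φ 0 = 1 := by
  rw [xa]
  exact map_one φ

/-- the inclusion of `A` -/
noncomputable def ia (A : Type) [CommRing A] : A →+* Tor A := LaurentPolynomial.C.comp LaurentPolynomial.C

/-- the coordinate `s` -/
noncomputable def ts (A : Type) [CommRing A] : Tor A := LaurentPolynomial.C (LaurentPolynomial.T 1)

/-- the coordinate `t` -/
noncomputable def tt (A : Type) [CommRing A] : Tor A := LaurentPolynomial.T 1

lemma ia_algebraMap (r : R) : ia A (algebraMap R A r) = algebraMap R (Tor A) r := rfl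

open Classical in
/-- the sign of a monomial -/
noncomputable def sg (B : Type) [CommRing B] (m : Mon n D) : B := if m = mo n D then 1 else -1

lemma sg_mo (B : Type) [CommRing B] : sg B (mo n D) = 1 := if_pos rfl

lemma sg_ne (B : Type) [CommRing B] {m : Mon n D} (h : m ≠ mo n D) : sg B m = -1 := if_neg h

lemma map_sg {B C : Type} [CommRing B] [CommRing C] (f : B →+* C) (m : Mon n D) :
    f (sg B m) = sg C m := by
  by_cases h : m = mo n D
  · rw [h, sg_mo, sg_mo, map_one]
  · rw [sg_ne _ h, sg_ne _ h, map_neg, map_one]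

lemma sg_mul (B : Type) [CommRing B] (m : Mon n D) : sg B m * sg B m = 1 := by
  by_cases h : m = mo n D
  · rw [h, sg_mo, one_mul]
  · rw [sg_ne _ h]
    ring

/-- `u_m ↦ s x^m`, `v_m ↦ ± t x^m` -/
noncomputable def th0 : UVRing R n D →ₐ[R] Tor A :=
  aeval (Sum.elim (fun m => ts A * ia A (xa φ m.1))
    (fun m => sg (Tor A) m * (tt A * ia A (xa φ m.1))))

lemma th0_u (m : Mon n D) : th0 φ (uu R m) = ts A * ia A (xa φ m.1) := by
  rw [th0, uu, aeval_X, Sum.elim_inl]

lemma th0_v (m : Mon n D) : th0 φ (vv R m) = sg (Tor A) m * (tt A * ia A (xa φ m.1)) := by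
  rw [th0, vv, aeval_X, Sum.elim_inr]

lemma th0_v0 : th0 φ (vv R (mo n D)) = tt A := by
  rw [th0_v, sg_mo, mo, xa_zero, map_one, mul_one, one_mul]

lemma th0_u0 : th0 φ (uu R (mo n D)) = ts A := by
  rw [th0_u, mo, xa_zero, map_one, mul_one]

variable (hG : ∀ g ∈ G, φ g = 0) (hd : ∀ g ∈ G, ∀ m ∈ g.support, m.degree ≤ D)

include hG hd in
lemma th0_eqs (k : Mon n D ⊕ (Mon n D × Fin n) ⊕ G) : th0 φ (eqs hD G k) = 0 := by
  rcases k with m | ⟨m, i⟩ | g
  · rw [eqs_lin]
    split_ifs with h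
    · exact map_zero _
    · rw [map_add, map_mul, map_mul, th0_u, th0_v0, th0_u0, th0_v, sg_ne _ h]
      ring
  · rw [eqs_mul]
    split_ifs with h
    · rw [map_add, map_mul, map_mul, th0_u, th0_v, th0_u, th0_v0, sg_ne _ (me_ne hD i), me,
        xa_add, map_mul]
      ring
    · exact map_zero _
  · unfold eqs
    have h1 : ∑ m : Mon n D, algebraMap R A (coeff m.1 g.1) * xa φ m.1 = 0 := by
      rw [← hG g.1 g.2]
      exact (hom_eq_sum φ g.1 (hd g.1 g.2)).symm
    rw [map_sum]
    have h2 : ∀ m : Mon n D, th0 φ (C (coeff m.1 g.1) * (uu R m * vv R (mo n D))) =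
        ts A * tt A * ia A (algebraMap R A (coeff m.1 g.1) * xa φ m.1) := by
      intro m
      rw [map_mul, map_mul, th0_u, th0_v0, map_mul, ia_algebraMap,
        ← algebraMap_eq, AlgHom.commutes]
      ring
    rw [Finset.sum_congr rfl fun m _ => h2 m, ← Finset.mul_sum, ← map_sum, h1, map_zero, mul_zero]

/-- the ring of the system of bilinear equations -/
abbrev Cone : Type := UVRing R n D ⧸ eqI hD G

/-- the function `u_0 v_0` -/
noncomputable def cw : Cone hD G :=
  Ideal.Quotient.mk (eqI hD G) (uu R (mo n D) * vv R (mo n D))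

include hG hd in
lemma th0_ker (a : UVRing R n D) (ha : a ∈ eqI hD G) : th0 φ a = 0 := by
  have h : eqI hD G ≤ RingHom.ker (th0 (D := D) φ) := by
    rw [eqI, Ideal.span_le]
    rintro _ ⟨k, rfl⟩
    exact th0_eqs hD G φ hG hd k
  exact h ha

/-- the homomorphism from the ring of the cone -/
noncomputable def th1 : Cone hD G →ₐ[R] Tor A :=
  Ideal.Quotient.liftₐ (eqI hD G) (th0 φ) (th0_ker hD G φ hG hd)

lemma th1_mk (a : UVRing R n D) :
    th1 hD G φ hG hd (Ideal.Quotient.mk (eqI hD G) a) = th0 φ a := rfl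

lemma isUnit_ts : IsUnit (ts A) := (LaurentPolynomial.isUnit_T 1).map LaurentPolynomial.C

lemma isUnit_tt : IsUnit (tt A) := LaurentPolynomial.isUnit_T 1

lemma th1_cw : th1 hD G φ hG hd (cw hD G) = ts A * tt A := by
  rw [cw, th1_mk, map_mul, th0_u0, th0_v0]

/-- the localization of the ring of the cone -/
abbrev LCone : Type := Localization.Away (cw hD G)

/-- the homomorphism from the localization -/
noncomputable def th : LCone hD G →ₐ[R] Tor A :=
  IsLocalization.liftAlgHom (M := Submonoid.powers (cw hD G)) (f := th1 hD G φ hG hd) (by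
    rintro ⟨_, k, rfl⟩
    rw [map_pow, th1_cw]
    exact (isUnit_ts.mul isUnit_tt).pow k)

lemma th_mk (a : UVRing R n D) :
    th hD G φ hG hd (algebraMap (Cone hD G) (LCone hD G) (Ideal.Quotient.mk (eqI hD G) a)) =
      th0 φ a := by
  rw [th, IsLocalization.liftAlgHom_apply, IsLocalization.lift_eq]
  rfl

/-- the class of `a` in the localization -/
noncomputable def lc : UVRing R n D →ₐ[R] LCone hD G :=
  (IsScalarTower.toAlgHom R (Cone hD G) (LCone hD G)).comp (Ideal.Quotient.mkₐ R (eqI hD G))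

lemma lc_apply (a : UVRing R n D) :
    lc hD G a = algebraMap (Cone hD G) (LCone hD G) (Ideal.Quotient.mk (eqI hD G) a) := rfl

lemma lc_zero {a : UVRing R n D} (ha : a ∈ eqI hD G) : lc hD G a = 0 := by
  rw [lc_apply, Ideal.Quotient.eq_zero_iff_mem.mpr ha, map_zero]

lemma lc_eqs (k : Mon n D ⊕ (Mon n D × Fin n) ⊕ G) : lc hD G (eqs hD G k) = 0 :=
  lc_zero hD G (Ideal.subset_span ⟨k, rfl⟩)

lemma isUnit_lc : IsUnit (lc hD G (uu R (mo n D))) ∧ IsUnit (lc hD G (vv R (mo n D))) := by
  have h : IsUnit (lc hD G (uu R (mo n D)) * lc hD G (vv R (mo n D))) := by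
    rw [← map_mul]
    exact IsLocalization.map_units (M := Submonoid.powers (cw hD G)) (LCone hD G)
      ⟨cw hD G, Submonoid.mem_powers _⟩
  exact ⟨isUnit_of_mul_isUnit_left h, isUnit_of_mul_isUnit_right h⟩

/-- the unit `u_0` -/
noncomputable def u0 : (LCone hD G)ˣ := (isUnit_lc hD G).1.unit

/-- the unit `v_0` -/
noncomputable def v0 : (LCone hD G)ˣ := (isUnit_lc hD G).2.unit

lemma u0_val : (u0 hD G : LCone hD G) = lc hD G (uu R (mo n D)) := rfl

lemma v0_val : (v0 hD G : LCone hD G) = lc hD G (vv R (mo n D)) := rfl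

/-- `v_m = ± v_0 u_m / u_0` -/
lemma lc_v (m : Mon n D) :
    lc hD G (vv R m) = sg (LCone hD G) m * (v0 hD G * (lc hD G (uu R m) * ↑(u0 hD G)⁻¹)) := by
  by_cases hm : m = mo n D
  · rw [hm, sg_mo, ← u0_val, ← v0_val, Units.mul_inv, mul_one, one_mul]
  · have h := lc_eqs hD G (Sum.inl m)
    rw [eqs_lin, if_neg hm, map_add, map_mul, map_mul, ← u0_val, ← v0_val] at h
    rw [sg_ne _ hm]
    have h2 : (u0 hD G : LCone hD G) * ↑(u0 hD G)⁻¹ = 1 := Units.mul_inv _
    linear_combination (↑(u0 hD G)⁻¹ : LCone hD G) * h - (lc hD G (vv R m)) * h2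

/-- `x_i ↦ u_i / u_0` -/
noncomputable def ps0 : MvPolynomial (Fin n) R →ₐ[R] LCone hD G :=
  aeval (fun i => lc hD G (uu R (me hD i)) * ↑(u0 hD G)⁻¹)

lemma ps0_monomial : ∀ (d : ℕ) (m : Fin n →₀ ℕ) (h : m.degree ≤ D), m.degree = d →
    ps0 hD G (monomial m 1) = lc hD G (uu R ⟨m, h⟩) * ↑(u0 hD G)⁻¹ := by
  intro d
  induction d with
  | zero =>
    intro m h hm
    have h0 : m = 0 := (Finsupp.degree_eq_zero_iff m).mp hm
    subst h0
    have e : lc hD G (uu R ⟨0, h⟩) = u0 hD G := rfl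
    rw [e, Units.mul_inv]
    exact map_one _
  | succ d ih =>
    intro m h hm
    have hne : m ≠ 0 := by
      rintro rfl
      simp at hm
    obtain ⟨i, hi⟩ := Finsupp.support_nonempty_iff.mpr hne
    have hi1 : 1 ≤ m i := Nat.one_le_iff_ne_zero.mpr (Finsupp.mem_support_iff.mp hi)
    obtain ⟨m', rfl⟩ : ∃ m', m = m' + Finsupp.single i 1 :=
      ⟨m - Finsupp.single i 1, by
        rw [tsub_add_cancel_of_le]
        rw [Finsupp.single_le_iff]
        exact hi1⟩
    have hdeg : (m' + Finsupp.single i 1).degree = m'.degree + 1 := by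
      rw [map_add, Finsupp.degree_single]
    have hm' : m'.degree ≤ D := by omega
    have h1 := ih m' hm' (by omega)
    have h2 : (monomial (m' + Finsupp.single i 1) (1 : R)) = monomial m' 1 * X i := by
      rw [X, monomial_mul, one_mul]
    rw [h2, map_mul, h1]
    have h3 : ps0 hD G (X i) = lc hD G (uu R (me hD i)) * ↑(u0 hD G)⁻¹ := by
      rw [ps0, aeval_X]
    rw [h3]
    have h4 := lc_eqs hD G (Sum.inr (Sum.inl (⟨m', hm'⟩, i)))
    rw [eqs_mul, dif_pos h, map_add, map_mul, map_mul, lc_v, ← v0_val,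
      sg_ne _ (me_ne hD i)] at h4
    have h5 : lc hD G (uu R ⟨m', hm'⟩) * (lc hD G (uu R (me hD i)) * ↑(u0 hD G)⁻¹) =
        lc hD G (uu R ⟨m' + Finsupp.single i 1, h⟩) := by
      rw [← Units.mul_left_inj (v0 hD G)]
      linear_combination -h4
    rw [← h5]
    ring

variable (hs : Function.Surjective φ) (hK : RingHom.ker φ = Ideal.span (G : Set (MvPolynomial (Fin n) R)))

include hd in
lemma ps0_mem (g : MvPolynomial (Fin n) R) (hg : g ∈ G) : ps0 hD G g = 0 := by
  rw [hom_eq_sum (ps0 hD G) g (hd g hg)]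
  have h1 : ∀ m : Mon n D, algebraMap R (LCone hD G) (coeff m.1 g) * ps0 hD G (monomial m.1 1) =
      lc hD G (C (coeff m.1 g) * (uu R m * vv R (mo n D))) * (↑(u0 hD G)⁻¹ * ↑(v0 hD G)⁻¹) := by
    intro m
    rw [ps0_monomial hD G _ m.1 m.2 rfl, map_mul, map_mul, ← v0_val, ← algebraMap_eq,
      AlgHom.commutes]
    have : (v0 hD G : LCone hD G) * ↑(v0 hD G)⁻¹ = 1 := Units.mul_inv _
    linear_combination (-(algebraMap R (LCone hD G)) (coeff m.1 g) *
      lc hD G (uu R m) * ↑(u0 hD G)⁻¹) * this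
  rw [Finset.sum_congr rfl fun m _ => h1 m, ← Finset.sum_mul, ← map_sum]
  have h2 := lc_eqs hD G (Sum.inr (Sum.inr ⟨g, hg⟩))
  unfold eqs at h2
  rw [h2, zero_mul]

/-- the homomorphism from `A` -/
noncomputable def ps1 : A →ₐ[R] LCone hD G :=
  (Ideal.Quotient.liftₐ (RingHom.ker φ) (ps0 hD G) (by
    intro a ha
    rw [hK] at ha
    have h : Ideal.span (G : Set (MvPolynomial (Fin n) R)) ≤ RingHom.ker (ps0 hD G) := by
      rw [Ideal.span_le]
      intro g hg
      exact ps0_mem hD G hd g hg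
    exact h ha)).comp
    (Ideal.quotientKerAlgEquivOfSurjective (f := φ) hs).symm.toAlgHom

lemma ps1_apply (p : MvPolynomial (Fin n) R) : ps1 hD G φ hd hs hK (φ p) = ps0 hD G p := by
  have h : (Ideal.quotientKerAlgEquivOfSurjective (f := φ) hs).symm (φ p) =
      Ideal.Quotient.mk (RingHom.ker φ) p := by
    rw [AlgEquiv.symm_apply_eq]
    rfl
  unfold ps1
  rw [AlgHom.comp_apply]
  erw [h]
  rfl

/-- the inverse homomorphism -/
noncomputable def ps : Tor A →+* LCone hD G :=
  LaurentPolynomial.eval₂ (LaurentPolynomial.eval₂ (ps1 hD G φ hd hs hK).toRingHom (u0 hD G))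
    (v0 hD G)

lemma ps_ia (a : A) : ps hD G φ hd hs hK (ia A a) = ps1 hD G φ hd hs hK a := by
  rw [ps, ia, RingHom.comp_apply, LaurentPolynomial.eval₂_C, LaurentPolynomial.eval₂_C]
  rfl

lemma ps_ts : ps hD G φ hd hs hK (ts A) = u0 hD G := by
  rw [ps, ts, LaurentPolynomial.eval₂_C, LaurentPolynomial.eval₂_T, zpow_one]

lemma ps_tt : ps hD G φ hd hs hK (tt A) = v0 hD G := by
  rw [ps, tt, LaurentPolynomial.eval₂_T, zpow_one]

lemma laurent_hom_ext {B C : Type} [CommRing B] [CommRing C] (f g : LaurentPolynomial B →+* C)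
    (h : ∀ b, f (LaurentPolynomial.C b) = g (LaurentPolynomial.C b))
    (hT : f (LaurentPolynomial.T 1) = g (LaurentPolynomial.T 1)) : f = g := by
  apply IsLocalization.ringHom_ext (Submonoid.powers (Polynomial.X : Polynomial B))
  apply Polynomial.ringHom_ext
  · intro b
    simpa [LaurentPolynomial.algebraMap_eq_toLaurent, Polynomial.toLaurent_C] using h b
  · simpa [LaurentPolynomial.algebraMap_eq_toLaurent, Polynomial.toLaurent_X] using hT

lemma tor_hom_ext {C : Type} [CommRing C] (f g : Tor A →+* C)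
    (h : ∀ a, f (ia A a) = g (ia A a)) (h1 : f (ts A) = g (ts A)) (h2 : f (tt A) = g (tt A)) :
    f = g := by
  apply laurent_hom_ext f g _ h2
  intro b
  have : f.comp LaurentPolynomial.C = g.comp LaurentPolynomial.C :=
    laurent_hom_ext _ _ h h1
  exact congrArg (fun k => k b) this

lemma th_u0 : th hD G φ hG hd (u0 hD G) = ts A := by
  rw [u0_val, lc_apply, th_mk, th0_u0]

lemma th_v0 : th hD G φ hG hd (v0 hD G) = tt A := by
  rw [v0_val, lc_apply, th_mk, th0_v0]

lemma th_ps0 (p : MvPolynomial (Fin n) R) :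
    th hD G φ hG hd (ps0 hD G p) = ia A (φ p) := by
  have h : ((th hD G φ hG hd).comp (ps0 hD G)).toRingHom = (ia A).comp φ.toRingHom := by
    apply MvPolynomial.ringHom_ext
    · intro r
      change th hD G φ hG hd (ps0 hD G (C r)) = ia A (φ (C r))
      rw [← algebraMap_eq, AlgHom.commutes, AlgHom.commutes, AlgHom.commutes, ia_algebraMap]
    · intro i
      change th hD G φ hG hd (ps0 hD G (X i)) = ia A (φ (X i))
      rw [ps0, aeval_X, map_mul]
      have h1 : th hD G φ hG hd (lc hD G (uu R (me hD i))) = ts A * ia A (φ (X i)) := by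
        rw [lc_apply, th_mk, th0_u]
        rfl
      have h2 : ts A * th hD G φ hG hd ↑(u0 hD G)⁻¹ = 1 := by
        rw [← th_u0 hD G φ hG hd, ← map_mul, Units.mul_inv, map_one]
      rw [h1]
      linear_combination (ia A (φ (X i))) * h2
  exact congrArg (fun k : MvPolynomial (Fin n) R →+* Tor A => k p) h

lemma th_ps : (th hD G φ hG hd).toRingHom.comp (ps hD G φ hd hs hK) = RingHom.id _ := by
  apply tor_hom_ext
  · intro a
    obtain ⟨p, rfl⟩ := hs a
    change th hD G φ hG hd (ps hD G φ hd hs hK (ia A (φ p))) = _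
    rw [ps_ia, ps1_apply, th_ps0]
    rfl
  · change th hD G φ hG hd (ps hD G φ hd hs hK (ts A)) = _
    rw [ps_ts, th_u0]
    rfl
  · change th hD G φ hG hd (ps hD G φ hd hs hK (tt A)) = _
    rw [ps_tt, th_v0]
    rfl

lemma ps_th : (ps hD G φ hd hs hK).comp (th hD G φ hG hd).toRingHom = RingHom.id _ := by
  apply IsLocalization.ringHom_ext (Submonoid.powers (cw hD G))
  apply Ideal.Quotient.ringHom_ext
  apply MvPolynomial.ringHom_ext
  · intro r
    change ps hD G φ hd hs hK (th hD G φ hG hd (lc hD G (C r))) = lc hD G (C r)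
    rw [← algebraMap_eq, AlgHom.commutes, AlgHom.commutes, ← ia_algebraMap, ps_ia,
      AlgHom.commutes]
  · rintro (m | m)
    · change ps hD G φ hd hs hK (th hD G φ hG hd (lc hD G (uu R m))) = lc hD G (uu R m)
      rw [lc_apply, th_mk, th0_u, map_mul, ps_ts, ps_ia, xa, ps1_apply,
        ps0_monomial hD G _ m.1 m.2 rfl, mul_comm, mul_assoc, Units.inv_mul, mul_one, lc_apply]
    · change ps hD G φ hd hs hK (th hD G φ hG hd (lc hD G (vv R m))) = lc hD G (vv R m)
      have h : th hD G φ hG hd (lc hD G (vv R m)) =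
          sg (Tor A) m * (tt A * ia A (xa φ m.1)) := by
        rw [lc_apply, th_mk, th0_v]
      rw [h, map_mul, map_mul, map_sg, ps_tt, ps_ia, xa, ps1_apply,
        ps0_monomial hD G _ m.1 m.2 rfl, ← lc_v]

/-- The open part `u_0 v_0 ≠ 0` of the cone is `Spec A × 𝔾_m × 𝔾_m`. -/
noncomputable def coneEquiv : LCone hD G ≃ₐ[R] Tor A :=
  AlgEquiv.ofRingEquiv (f := RingEquiv.ofRingHom (th hD G φ hG hd).toRingHom
    (ps hD G φ hd hs hK) (th_ps hD G φ hG hd hs hK) (ps_th hD G φ hG hd hs hK))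
    (fun r => (th hD G φ hG hd).commutes r)

end

end Pool.Agent.Y116.UV
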