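import Pool.Agent.H95.L.Y116_UV_Cone

/-!
# Affine schemes over `R`, closed-open decompositions and the reduction to the affine case
-/

set_option autoImplicit false

open CategoryTheory AlgebraicGeometry TopologicalSpace

namespace Pool.Agent.Y116.UV

variable {R : Type} [CommRing R]

section Affine

variable {A B C : Type} [CommRing A] [CommRing B] [CommRing C] [Algebra R A] [Algebra R B]
  [Algebra R C]

/-- The morphism of affine schemes of a homomorphism of algebras. -/
noncomputable def affMap (f : A →ₐ[R] B) : aff R B ⟶ aff R A :=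
  Over.homMk (Spec.map (CommRingCat.ofHom (f : A →+* B))) (by
    change Spec.map _ ≫ Spec.map _ = Spec.map _
    rw [← Spec.map_comp, ← CommRingCat.ofHom_comp, AlgHom.comp_algebraMap])

lemma affMap_left (f : A →ₐ[R] B) :
    (affMap f).left = Spec.map (CommRingCat.ofHom (f : A →+* B)) := rfl

lemma affMap_comp (f : A →ₐ[R] B) (g : B →ₐ[R] C) : affMap (g.comp f) = affMap g ≫ affMap f := by
  ext1
  change Spec.map _ = Spec.map _ ≫ Spec.map _
  rw [← Spec.map_comp, ← CommRingCat.ofHom_comp]
  rfl

lemma affMap_id : affMap (AlgHom.id R A) = 𝟙 (aff R A) := by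
  ext1
  change Spec.map _ = 𝟙 _
  exact Spec.map_id _

/-- The isomorphism of affine schemes of an isomorphism of algebras. -/
noncomputable def affIso (e : A ≃ₐ[R] B) : aff R B ≅ aff R A where
  hom := affMap (e : A →ₐ[R] B)
  inv := affMap (e.symm : B →ₐ[R] A)
  hom_inv_id := by
    rw [← affMap_comp, ← affMap_id]
    congr 1
    ext x
    simp
  inv_hom_id := by
    rw [← affMap_comp, ← affMap_id]
    congr 1
    ext x
    simp

variable (sep : Prop)

lemma ft_aff [h : Algebra.FiniteType R A] : FT sep (aff R A) where
  locallyOfFiniteType := by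
    change LocallyOfFiniteType (Spec.map (CommRingCat.ofHom (algebraMap R A)))
    rw [HasRingHomProperty.Spec_iff (P := @LocallyOfFiniteType)]
    exact RingHom.finiteType_algebraMap.mpr h
  quasiCompact := by
    change QuasiCompact (Spec.map (CommRingCat.ofHom (algebraMap R A)))
    infer_instance
  separated _ := by
    change IsSeparated (Spec.map (CommRingCat.ofHom (algebraMap R A)))
    infer_instance

lemma affMap_apply (f : A →ₐ[R] B) (x : PrimeSpectrum B) :
    (affMap f).left x = PrimeSpectrum.comap (f : A →+* B) x := rfl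

lemma closed_affMap (f : A →ₐ[R] B) (hf : Function.Surjective f) :
    IsClosedImmersion (affMap f).left :=
  IsClosedImmersion.spec_of_surjective _ hf

lemma range_affMap (f : A →ₐ[R] B) (hf : Function.Surjective f) :
    Set.range (affMap f).left = {x : PrimeSpectrum A | ∀ a, f a = 0 → a ∈ x.asIdeal} := by
  have h : Set.range (affMap f).left = Set.range (PrimeSpectrum.comap (f : A →+* B)) := rfl
  exact h.trans (range_comap_of_surjective _ (f : A →+* B) hf)

/-- The closed subscheme `w = 0` and the open subscheme `w ≠ 0`. -/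
lemma triple_away (w : A) :
    IsTriple (affMap (Ideal.Quotient.mkₐ R (Ideal.span {w})))
      (affMap (IsScalarTower.toAlgHom R A (Localization.Away w))) where
  closed := closed_affMap _ (Ideal.Quotient.mkₐ_surjective R _)
  opened := Scheme.isOpenImmersion_SpecMap_localizationAway (R := .of A) w
  compl := by
    rw [range_affMap _ (Ideal.Quotient.mkₐ_surjective R _)]
    have h : Set.range (affMap (IsScalarTower.toAlgHom R A (Localization.Away w))).left =
        (PrimeSpectrum.basicOpen w : Set (PrimeSpectrum A)) :=
      PrimeSpectrum.localization_away_comap_range _ w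
    rw [h]
    ext x
    change (∀ a, Ideal.Quotient.mk (Ideal.span {w}) a = 0 → a ∈ x.asIdeal) ↔ ¬ (w ∉ x.asIdeal)
    rw [not_not]
    constructor
    · intro h
      exact h w (Ideal.Quotient.eq_zero_iff_mem.mpr (Ideal.mem_span_singleton_self w))
    · intro h a ha
      rw [Ideal.Quotient.eq_zero_iff_mem] at ha
      exact (Ideal.span_singleton_le_iff_mem _).mpr h ha

end Affine

section Opens

variable (X : Sch R)

/-- An open subscheme. -/
noncomputable def opn (V : X.left.Opens) : Sch R := Over.mk (V.ι ≫ X.hom)

/-- The inclusion of an open subscheme. -/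
noncomputable def opnMap (V : X.left.Opens) : opn X V ⟶ X := Over.homMk V.ι rfl

instance (V : X.left.Opens) : IsOpenImmersion (opnMap X V).left :=
  inferInstanceAs (IsOpenImmersion V.ι)

lemma range_opnMap (V : X.left.Opens) : Set.range (opnMap X V).left = V :=
  V.range_ι

/-- The inclusion of open subschemes. -/
noncomputable def opnLe {V W : X.left.Opens} (h : V ≤ W) : opn X V ⟶ opn X W :=
  Over.homMk (X.left.homOfLE h) (by
    change X.left.homOfLE h ≫ (W.ι ≫ X.hom) = V.ι ≫ X.hom
    rw [← Category.assoc, Scheme.homOfLE_ι])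

instance {V W : X.left.Opens} (h : V ≤ W) : IsOpenImmersion (opnLe X h).left :=
  inferInstanceAs (IsOpenImmersion (X.left.homOfLE h))

lemma range_opnLe {V W : X.left.Opens} (h : V ≤ W) :
    Set.range (opnLe X h).left = W.ι ⁻¹' (V : Set X.left) := by
  have h1 : V.ι = X.left.homOfLE h ≫ W.ι := (Scheme.homOfLE_ι _ h).symm
  have h2 : W.ι '' Set.range (X.left.homOfLE h) = V := by
    rw [← Scheme.Opens.range_ι V, h1, ← Set.range_comp]
    rfl
  change Set.range (X.left.homOfLE h) = _
  rw [← h2, Set.preimage_image_eq]
  exact W.ι.isOpenEmbedding.injective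

variable {X}

lemma ft_opn {sep : Prop} (h : FT sep X) (V : X.left.Opens) (hV : IsCompact (V : Set X.left)) :
    FT sep (opn X V) where
  locallyOfFiniteType := by
    have := h.locallyOfFiniteType
    change LocallyOfFiniteType (V.ι ≫ X.hom)
    infer_instance
  quasiCompact := by
    exact (quasiCompact_iff_compactSpace _).mpr (isCompact_iff_compactSpace.mp hV)
  separated hs := by
    have := h.separated hs
    change IsSeparated (V.ι ≫ X.hom)
    infer_instance

end Opens

section Closed

variable (X : Sch R) (V : X.left.Opens)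

/-- The ideal of the closed complement of an open subscheme. -/
noncomputable def cloI : X.left.IdealSheafData :=
  Scheme.IdealSheafData.vanishingIdeal ⟨(V : Set X.left)ᶜ, V.2.isClosed_compl⟩

/-- The reduced closed complement of an open subscheme. -/
noncomputable def clo : Sch R := Over.mk ((cloI X V).subschemeι ≫ X.hom)

/-- The inclusion of the reduced closed complement of an open subscheme. -/
noncomputable def cloMap : clo X V ⟶ X := Over.homMk (cloI X V).subschemeι rfl

instance : IsClosedImmersion (cloMap X V).left :=
  inferInstanceAs (IsClosedImmersion (cloI X V).subschemeι)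

lemma range_cloMap : Set.range (cloMap X V).left = (V : Set X.left)ᶜ := by
  have h : Set.range (cloMap X V).left = Set.range (cloI X V).subschemeι := rfl
  rw [h, Scheme.IdealSheafData.range_subschemeι, cloI,
    Scheme.IdealSheafData.coe_support_vanishingIdeal]
  rfl

variable {X V}

lemma ft_clo {sep : Prop} (h : FT sep X) : FT sep (clo X V) where
  locallyOfFiniteType := by
    have := h.locallyOfFiniteType
    change LocallyOfFiniteType ((cloI X V).subschemeι ≫ X.hom)
    infer_instance
  quasiCompact := by
    have := h.quasiCompact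
    change QuasiCompact ((cloI X V).subschemeι ≫ X.hom)
    infer_instance
  separated hs := by
    have := h.separated hs
    change IsSeparated ((cloI X V).subschemeι ≫ X.hom)
    infer_instance

lemma isAffine_clo (U : X.left.Opens) (hU : IsAffineOpen U) (h : V ⊔ U = ⊤) :
    IsAffine (clo X V).left := by
  have h1 : IsAffineOpen ((cloI X V).subschemeι ⁻¹ᵁ U) := hU.preimage _
  have h2 : (cloI X V).subschemeι ⁻¹ᵁ U = ⊤ := by
    rw [eq_top_iff]
    intro x _
    have h3 : (cloI X V).subschemeι x ∈ (V : Set X.left)ᶜ := by
      rw [← range_cloMap]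
      exact ⟨x, rfl⟩
    have h4 : (cloI X V).subschemeι x ∈ V ⊔ U := by
      rw [h]
      trivial
    rcases h4 with h4 | h4
    · exact absurd h4 h3
    · exact h4
  rw [h2] at h1
  have h3 : IsAffine ((⊤ : (cloI X V).subscheme.Opens) : Scheme) := h1
  have h4 : IsIso (Scheme.topIso (cloI X V).subscheme).inv := Iso.isIso_inv _
  exact @IsAffine.of_isIso _ _ (Scheme.topIso (cloI X V).subscheme).inv h4 h3

end Closed

section Reduction

variable {sep : Prop} {P : Sch R → Prop}

lemma exists_aff (X : Sch R) (hX : LocallyOfFiniteType X.hom) [IsAffine X.left] :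
    ∃ (A : Type) (_ : CommRing A) (_ : Algebra R A) (_ : Algebra.FiniteType R A),
      Nonempty (aff R A ≅ X) := by
  let A : CommRingCat := Γ(X.left, ⊤)
  let g : CommRingCat.of R ⟶ A := Spec.preimage (X.left.isoSpec.inv ≫ X.hom)
  have hg : Spec.map g = X.left.isoSpec.inv ≫ X.hom := Spec.map_preimage _
  let _ : Algebra R A := RingHom.toAlgebra g.hom
  have h1 : LocallyOfFiniteType (Spec.map g) := by
    rw [hg]
    infer_instance
  have h2 : Algebra.FiniteType R A := by
    rw [HasRingHomProperty.Spec_iff (P := @LocallyOfFiniteType)] at h1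
    exact h1
  refine ⟨A, inferInstance, inferInstance, h2, ⟨Over.isoMk X.left.isoSpec.symm ?_⟩⟩
  exact hg.symm

/-- It is enough to consider affine schemes, if the property is invariant under isomorphisms and
closed under gluing a closed and an open part. -/
theorem of_affine' (hiso : ∀ {X Y : Sch R}, FT sep X → Nonempty (X ≅ Y) → P X → P Y)
    (htot : ∀ {Z X U : Sch R} (i : Z ⟶ X) (j : U ⟶ X), FT sep X → IsTriple i j → P Z → P U → P X)
    (h : ∀ (A : Type) [CommRing A] [Algebra R A] [Algebra.FiniteType R A], P (aff R A))
    (X : Sch R) (hX : FT sep X) : P X := by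
  have haff : ∀ (Y : Sch R) (_ : FT sep Y) (_ : IsAffine Y.left), P Y := by
    intro Y hY _
    obtain ⟨A, _, _, _, ⟨e⟩⟩ := exists_aff Y hY.locallyOfFiniteType
    exact hiso (ft_aff sep) ⟨e⟩ (h A)
  have hc : CompactSpace X.left := (quasiCompact_iff_compactSpace X.hom).mp hX.quasiCompact
  have key : ∀ S : X.left.Opens, IsCompact (S : Set X.left) → P (opn X S) := by
    intro S hS
    refine compact_open_induction_on S hS ?_ ?_
    · apply haff _ (ft_opn hX ⊥ isCompact_empty)
      exact isAffineOpen_bot X.left
    · intro S hS U hPS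
      have hc2 : IsCompact ((S ⊔ U.1 : X.left.Opens) : Set X.left) := hS.union U.2.isCompact
      have hY := ft_opn hX (S ⊔ U.1) hc2
      have hle : S ≤ S ⊔ U.1 := le_sup_left
      let W : (opn X (S ⊔ U.1)).left.Opens := (S ⊔ U.1).ι ⁻¹ᵁ S
      let U' : (opn X (S ⊔ U.1)).left.Opens := (S ⊔ U.1).ι ⁻¹ᵁ U.1
      have hU' : IsAffineOpen ((S ⊔ U.1).ι ⁻¹ᵁ U.1) := by
        apply IsAffineOpen.preimage_of_isOpenImmersion U.2
        rw [Scheme.Opens.opensRange_ι]
        exact le_sup_right
      have hWU : W ⊔ U' = ⊤ := by
        rw [eq_top_iff]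
        intro x _
        exact x.2
      refine htot (cloMap _ W) (opnLe X hle) hY ⟨inferInstance, inferInstance, ?_⟩
        (haff _ (ft_clo hY) (isAffine_clo U' hU' hWU)) hPS
      rw [range_cloMap, range_opnLe]
      rfl
  have h2 := key ⊤ isCompact_univ
  refine hiso (ft_opn hX ⊤ isCompact_univ) ⟨?_⟩ h2
  exact Over.isoMk (Scheme.topIso X.left) rfl

/-- It is enough to consider affine schemes. -/
theorem of_affine (hP : Uni sep P)
    (h : ∀ (A : Type) [CommRing A] [Algebra R A] [Algebra.FiniteType R A], P (aff R A))
    (X : Sch R) (hX : FT sep X) : P X :=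
  of_affine' hP.iso hP.total h X hX

end Reduction

end Pool.Agent.Y116.UV
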