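import Pool.Agent.H95.L.Y116_UV_Main

/-!
# Presentations by sums of monomials

Over `ℤ`, or over a quotient of `ℤ`, every algebra of finite type has a presentation by polynomials all
of whose coefficients are `0` or `1`.
-/

set_option autoImplicit false

open MvPolynomial

namespace Pool.Agent.Y116.UV

variable {R : Type} [CommRing R]

/-- It is enough to find presentations with any finite set of variables. -/
lemma presents_of {S : Set R}
    (h : ∀ (A : Type) [CommRing A] [Algebra R A] [Algebra.FiniteType R A],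
      ∃ (V : Type) (_ : Fintype V) (φ : MvPolynomial V R →ₐ[R] A)
        (G : Finset (MvPolynomial V R)), Function.Surjective φ ∧
        RingHom.ker φ = Ideal.span (G : Set (MvPolynomial V R)) ∧
        ∀ g ∈ G, ∀ m, coeff m g ∈ S) : Presents S := by
  classical
  intro A _ _ _
  obtain ⟨V, _, φ, G, hs, hK, hc⟩ := h A
  let e : V ≃ Fin (Fintype.card V) := Fintype.equivFin V
  let E : MvPolynomial V R ≃ₐ[R] MvPolynomial (Fin (Fintype.card V)) R := renameEquiv R e
  refine ⟨Fintype.card V, φ.comp (E.symm : _ →ₐ[R] _), G.image E, ?_, ?_, ?_⟩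
  · intro a
    obtain ⟨p, rfl⟩ := hs a
    refine ⟨E p, ?_⟩
    change φ (E.symm (E p)) = φ p
    rw [E.symm_apply_apply]
  · let E1 : MvPolynomial V R →+* MvPolynomial (Fin (Fintype.card V)) R :=
      (rename e : MvPolynomial V R →ₐ[R] _).toRingHom
    have h1 : (G.image E : Set (MvPolynomial (Fin (Fintype.card V)) R)) =
        E1 '' (G : Set (MvPolynomial V R)) := by
      rw [Finset.coe_image]
      rfl
    rw [h1, ← Ideal.map_span, ← hK]
    ext p
    constructor
    · intro hp
      have h2 : E.symm p ∈ RingHom.ker φ := hp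
      have h3 := Ideal.mem_map_of_mem E1 h2
      have h4 : E1 (E.symm p) = p := E.apply_symm_apply p
      rwa [h4] at h3
    · intro hp
      obtain ⟨q, hq, rfl⟩ := (Ideal.mem_map_iff_of_surjective E1
        (fun p => ⟨E.symm p, E.apply_symm_apply p⟩)).mp hp
      change φ (E.symm (E q)) = 0
      rw [E.symm_apply_apply]
      exact hq
  · intro g hg m
    obtain ⟨g, hg', rfl⟩ := Finset.mem_image.mp hg
    have h1 : m = Finsupp.mapDomain e (Finsupp.mapDomain e.symm m) := by
      rw [← Finsupp.mapDomain_comp]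
      simp
    change coeff m (rename e g) ∈ S
    rw [h1, coeff_rename_mapDomain e e.injective]
    exact hc g hg' _

/-- a sum of monomials -/
noncomputable def ms (R : Type) [CommRing R] {V : Type} (F : Finset (V →₀ ℕ)) : MvPolynomial V R :=
  ∑ μ ∈ F, monomial μ 1

open Classical in
lemma coeff_ms {V : Type} (F : Finset (V →₀ ℕ)) (m : V →₀ ℕ) :
    coeff m (ms R F) = if m ∈ F then 1 else 0 := by
  rw [ms, coeff_sum]
  simp only [coeff_monomial]
  rw [Finset.sum_ite_eq' F m]

lemma coeff_ms_mem {V : Type} (F : Finset (V →₀ ℕ)) (m : V →₀ ℕ) :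
    coeff m (ms R F) ∈ ({0, 1} : Set R) := by
  classical
  rw [coeff_ms]
  split_ifs
  · exact Or.inr rfl
  · exact Or.inl rfl

section

variable {n : ℕ} (K : ℕ) (G : Finset (MvPolynomial (Fin n) R))

/-- the integers of absolute value at most `K` -/
abbrev Cs (K : ℕ) : Type := ↥(Finset.Icc (-(K : ℤ)) K)

/-- the variables -/
abbrev Vs (n K : ℕ) : Type := Fin n ⊕ Option (Cs K)

/-- the exponent of the variable for the constant `c` -/
noncomputable def ey (n : ℕ) {K : ℕ} (c : Cs K) : Vs n K →₀ ℕ := Finsupp.single (Sum.inr (some c)) 1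

/-- the exponent of the variable for the constant `-1` -/
noncomputable def ez (n K : ℕ) : Vs n K →₀ ℕ := Finsupp.single (Sum.inr none) 1

/-- the negative constant -/
def ng {K : ℕ} (c : Cs K) : Cs K := ⟨-c.1, by
  have := Finset.mem_Icc.mp c.2
  rw [Finset.mem_Icc]
  omega⟩

/-- the next constant -/
def nx {K : ℕ} (c : Cs K) (h : c.1 < K) : Cs K := ⟨c.1 + 1, by
  have := Finset.mem_Icc.mp c.2
  rw [Finset.mem_Icc]
  omega⟩

/-- the constant zero -/
def zr (K : ℕ) : Cs K := ⟨0, by
  rw [Finset.mem_Icc]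
  omega⟩

variable (z : (Fin n →₀ ℕ) → MvPolynomial (Fin n) R → Cs K)

/-- the exponents of the relation `g` -/
noncomputable def eg (m : Fin n →₀ ℕ) (g : MvPolynomial (Fin n) R) : Vs n K →₀ ℕ :=
  ey n (z m g) + m.mapDomain Sum.inl

open Classical in
/-- the exponents of the relations -/
noncomputable def rF : (Option (Option (Cs K ⊕ Cs K))) ⊕ G → Finset (Vs n K →₀ ℕ)
  | Sum.inl none => {ez n K, 0}
  | Sum.inl (some none) => {ey n (zr K)}
  | Sum.inl (some (some (Sum.inl c))) => if c = zr K then ∅ else {ey n c, ey n (ng c)}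
  | Sum.inl (some (some (Sum.inr c))) =>
      if h : 0 ≤ c.1 ∧ c.1 < K then {ey n (nx c h.2), ey n (ng c), ez n K} else ∅
  | Sum.inr g => g.1.support.image fun m => eg K z m g.1

/-- the relations -/
noncomputable def rel (k : (Option (Option (Cs K ⊕ Cs K))) ⊕ G) : MvPolynomial (Vs n K) R :=
  ms R (rF K G z k)

/-- the ideal of the relations -/
noncomputable def rI : Ideal (MvPolynomial (Vs n K) R) := Ideal.span (Set.range (rel K G z))

/-- the substitution of the constants -/
noncomputable def sb (R : Type) [CommRing R] (n K : ℕ) :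
    MvPolynomial (Vs n K) R →ₐ[R] MvPolynomial (Fin n) R :=
  aeval (Sum.elim X fun o => o.elim (-1) fun c => C ((c.1 : ℤ) : R))

lemma ey_inj {c c' : Cs K} (h : ey n c = ey n c') : c = c' := by
  have := Finsupp.single_left_injective (one_ne_zero) h
  simpa using this

lemma ey_ne_ez (c : Cs K) : ey n c ≠ ez n K := by
  intro h
  have := Finsupp.single_left_injective (one_ne_zero) h
  simp at this

lemma ng_ne {c : Cs K} (h : c ≠ zr K) : c ≠ ng c := by
  intro h2
  apply h
  have : c.1 = -c.1 := congrArg Subtype.val h2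
  apply Subtype.ext
  change c.1 = 0
  omega

lemma eg_inj (g : MvPolynomial (Fin n) R) : Function.Injective fun m => eg K z m g := by
  classical
  intro m m' h
  ext i
  have h1 := congrArg (fun f : Vs n K →₀ ℕ => f (Sum.inl i)) h
  simp only [eg, ey, Finsupp.add_apply] at h1
  rw [Finsupp.single_eq_of_ne (by simp), Finsupp.single_eq_of_ne (by simp),
    Finsupp.mapDomain_apply Sum.inl_injective, Finsupp.mapDomain_apply Sum.inl_injective] at h1
  simpa using h1

variable {B : Type} [CommRing B] [Algebra R B] (χ : MvPolynomial (Vs n K) R →ₐ[R] B)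

lemma χ_none : χ (rel K G z (Sum.inl none)) = χ (X (Sum.inr none)) + 1 := by
  classical
  rw [rel, ms, map_sum]
  have h : ez n K ≠ 0 := by
    rw [ez, Ne, Finsupp.single_eq_zero]
    exact one_ne_zero
  change ∑ μ ∈ {ez n K, 0}, χ (monomial μ 1) = _
  rw [Finset.sum_pair h]
  congr 1
  exact map_one χ

lemma χ_zero : χ (rel K G z (Sum.inl (some none))) = χ (X (Sum.inr (some (zr K)))) := by
  classical
  rw [rel, ms, map_sum]
  change ∑ μ ∈ {ey n (zr K)}, χ (monomial μ 1) = _
  rw [Finset.sum_singleton]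
  rfl

lemma χ_neg (c : Cs K) (hc : c ≠ zr K) : χ (rel K G z (Sum.inl (some (some (Sum.inl c))))) =
    χ (X (Sum.inr (some c))) + χ (X (Sum.inr (some (ng c)))) := by
  classical
  have h : rF K G z (Sum.inl (some (some (Sum.inl c)))) = {ey n c, ey n (ng c)} := if_neg hc
  rw [rel, h, ms, map_sum, Finset.sum_pair fun h2 => ng_ne K hc (ey_inj K h2)]
  rfl

lemma χ_next (c : Cs K) (h0 : 0 ≤ c.1) (h1 : c.1 < K) :
    χ (rel K G z (Sum.inl (some (some (Sum.inr c))))) =
    χ (X (Sum.inr (some (nx c h1)))) + (χ (X (Sum.inr (some (ng c)))) + χ (X (Sum.inr none))) := by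
  classical
  have h : rF K G z (Sum.inl (some (some (Sum.inr c)))) = {ey n (nx c h1), ey n (ng c), ez n K} :=
    dif_pos ⟨h0, h1⟩
  have h2 : nx c h1 ≠ ng c := by
    intro h3
    have : c.1 + 1 = -c.1 := congrArg Subtype.val h3
    omega
  rw [rel, h, ms, map_sum, Finset.sum_insert, Finset.sum_pair (ey_ne_ez K _)]
  · rfl
  · rw [Finset.mem_insert, Finset.mem_singleton]
    rintro (h3 | h3)
    · exact h2 (ey_inj K h3)
    · exact ey_ne_ez K _ h3

lemma χ_gen (g : G) : χ (rel K G z (Sum.inr g)) = ∑ m ∈ g.1.support,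
    χ (X (Sum.inr (some (z m g.1)))) * χ (rename Sum.inl (monomial m 1)) := by
  classical
  rw [rel, ms, map_sum]
  change ∑ μ ∈ g.1.support.image (fun m => eg K z m g.1), χ (monomial μ 1) = _
  rw [Finset.sum_image fun m _ m' _ h => eg_inj K z g.1 h]
  apply Finset.sum_congr rfl
  intro m _
  rw [← map_mul]
  congr 1
  rw [rename_monomial, X, monomial_mul, one_mul]
  rfl

variable (hz : ∀ g ∈ G, ∀ m ∈ g.support, (((z m g).1 : ℤ) : R) = coeff m g)

include hz in
lemma sb_rel (k : (Option (Option (Cs K ⊕ Cs K))) ⊕ G) :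
    sb R n K (rel K G z k) ∈ Ideal.span (G : Set (MvPolynomial (Fin n) R)) := by
  classical
  have he : sb R n K (X (Sum.inr none)) = -1 := by
    rw [sb, aeval_X]
    rfl
  have hy : ∀ c : Cs K, sb R n K (X (Sum.inr (some c))) = C ((c.1 : ℤ) : R) := by
    intro c
    rw [sb, aeval_X]
    rfl
  rcases k with (_ | _ | c | c) | g
  · rw [χ_none, he, neg_add_cancel]
    exact Ideal.zero_mem _
  · rw [χ_zero, hy]
    have : ((((zr K).1 : ℤ)) : R) = 0 := by
      change ((0 : ℤ) : R) = 0
      exact Int.cast_zero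
    rw [this, map_zero]
    exact Ideal.zero_mem _
  · by_cases hc : c = zr K
    · have h : rF K G z (Sum.inl (some (some (Sum.inl c)))) = ∅ := if_pos hc
      rw [rel, h, ms, Finset.sum_empty, map_zero]
      exact Ideal.zero_mem _
    · rw [χ_neg K G z _ c hc, hy, hy, ← map_add, ← Int.cast_add]
      have : c.1 + (ng c).1 = 0 := by
        change c.1 + -c.1 = 0
        omega
      rw [this, Int.cast_zero, map_zero]
      exact Ideal.zero_mem _
  · by_cases h : 0 ≤ c.1 ∧ c.1 < K
    · rw [χ_next K G z _ c h.1 h.2, hy, hy, he]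
      have : (C ((((nx c h.2).1 : ℤ)) : R) : MvPolynomial (Fin n) R) + (C ((((ng c).1 : ℤ)) : R) + -1) = 0 := by
        change (C (((c.1 + 1 : ℤ)) : R) : MvPolynomial (Fin n) R) + (C (((-c.1 : ℤ)) : R) + -1) = 0
        rw [Int.cast_add, Int.cast_one, map_add, map_one, Int.cast_neg, map_neg]
        ring
      rw [this]
      exact Ideal.zero_mem _
    · have h : rF K G z (Sum.inl (some (some (Sum.inr c)))) = ∅ := dif_neg h
      rw [rel, h, ms, Finset.sum_empty, map_zero]
      exact Ideal.zero_mem _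
  · rw [χ_gen]
    have h1 : ∀ m ∈ g.1.support, sb R n K (X (Sum.inr (some (z m g.1)))) *
        sb R n K (rename Sum.inl (monomial m 1)) = monomial m (coeff m g.1) := by
      intro m hm
      have h2 : sb R n K (rename Sum.inl (monomial m (1 : R))) = monomial m 1 := by
        rw [sb, aeval_rename]
        exact aeval_X_left_apply _
      rw [hy, h2, hz g.1 g.2 m hm, C_mul_monomial, mul_one]
    rw [Finset.sum_congr rfl h1, ← g.1.as_sum]
    exact Ideal.subset_span g.2

lemma mk_e : Ideal.Quotient.mkₐ R (rI K G z) (X (Sum.inr none)) = -1 := by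
  have h := χ_none K G z (Ideal.Quotient.mkₐ R (rI K G z))
  have h2 : Ideal.Quotient.mkₐ R (rI K G z) (rel K G z (Sum.inl none)) = 0 :=
    Ideal.Quotient.eq_zero_iff_mem.mpr (Ideal.subset_span ⟨_, rfl⟩)
  rw [h2] at h
  linear_combination -h

lemma mk_y (d : ℕ) (hd : d ≤ K) (c : Cs K) (hc : c.1 = d ∨ c.1 = -d) :
    Ideal.Quotient.mkₐ R (rI K G z) (X (Sum.inr (some c))) = ((c.1 : ℤ) : _ ⧸ rI K G z) := by
  have hr : ∀ k, Ideal.Quotient.mkₐ R (rI K G z) (rel K G z k) = 0 := fun k =>
    Ideal.Quotient.eq_zero_iff_mem.mpr (Ideal.subset_span ⟨_, rfl⟩)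
  induction d generalizing c with
  | zero =>
    have h1 : c = zr K := by
      apply Subtype.ext
      change c.1 = 0
      omega
    rw [h1, ← χ_zero K G z, hr]
    change 0 = ((0 : ℤ) : _ ⧸ rI K G z)
    exact Int.cast_zero.symm
  | succ d ih =>
    have hpos : ∀ c : Cs K, c.1 = (d + 1 : ℕ) →
        Ideal.Quotient.mkₐ R (rI K G z) (X (Sum.inr (some c))) = ((c.1 : ℤ) : _ ⧸ rI K G z) := by
      intro c hc
      have h2 := Finset.mem_Icc.mp c.2
      let c' : Cs K := ⟨d, Finset.mem_Icc.mpr (by omega)⟩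
      have h3 : (0 : ℤ) ≤ c'.1 := by
        change (0 : ℤ) ≤ d
        omega
      have h4 : c'.1 < K := by
        change (d : ℤ) < K
        omega
      have h5 := χ_next K G z (Ideal.Quotient.mkₐ R (rI K G z)) c' h3 h4
      have h6 : nx c' h4 = c := by
        apply Subtype.ext
        change (d : ℤ) + 1 = c.1
        omega
      have h7 := ih (by omega) (ng c') (Or.inr rfl)
      rw [hr, mk_e, h6, h7] at h5
      have h8 : ((ng c').1 : ℤ) = -d := rfl
      rw [h8] at h5
      rw [hc]
      push_cast at h5 ⊢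
      linear_combination -h5
    rcases hc with hc | hc
    · exact hpos c hc
    · have h1 : c ≠ zr K := by
        intro h
        have : c.1 = 0 := congrArg Subtype.val h
        omega
      have h2 : ((ng c).1 : ℤ) = (d + 1 : ℕ) := by
        change -c.1 = _
        omega
      have h3 := χ_neg K G z (Ideal.Quotient.mkₐ R (rI K G z)) c h1
      rw [hr, hpos (ng c) h2, h2] at h3
      rw [hc]
      push_cast at h3 ⊢
      linear_combination -h3

lemma mk_sb (p : MvPolynomial (Vs n K) R) :
    Ideal.Quotient.mkₐ R (rI K G z) (rename Sum.inl (sb R n K p)) =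
      Ideal.Quotient.mkₐ R (rI K G z) p := by
  have h : ((Ideal.Quotient.mkₐ R (rI K G z)).comp (rename Sum.inl)).comp (sb R n K) =
      Ideal.Quotient.mkₐ R (rI K G z) := by
    apply MvPolynomial.algHom_ext
    rintro (i | _ | c)
    · change Ideal.Quotient.mkₐ R (rI K G z) (rename Sum.inl (sb R n K (X (Sum.inl i)))) = _
      rw [sb, aeval_X, Sum.elim_inl, rename_X]
    · change Ideal.Quotient.mkₐ R (rI K G z) (rename Sum.inl (sb R n K (X (Sum.inr none)))) = _
      rw [sb, aeval_X, Sum.elim_inr, mk_e]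
      change Ideal.Quotient.mkₐ R (rI K G z) (rename Sum.inl (-1)) = -1
      rw [map_neg, map_neg, map_one, map_one]
    · change Ideal.Quotient.mkₐ R (rI K G z) (rename Sum.inl (sb R n K (X (Sum.inr (some c))))) = _
      rw [sb, aeval_X, Sum.elim_inr]
      have h2 := Finset.mem_Icc.mp c.2
      rw [mk_y K G z c.1.natAbs (by omega) c (by omega)]
      change Ideal.Quotient.mkₐ R (rI K G z) (rename Sum.inl (C ((c.1 : ℤ) : R))) = _
      rw [rename_C, ← algebraMap_eq, AlgHom.commutes, map_intCast]
  exact congrArg (fun f : MvPolynomial (Vs n K) R →ₐ[R] _ => f p) h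

include hz in
lemma ker_sb {A : Type} [CommRing A] [Algebra R A] (φ : MvPolynomial (Fin n) R →ₐ[R] A)
    (hK : RingHom.ker φ = Ideal.span (G : Set (MvPolynomial (Fin n) R))) :
    RingHom.ker (φ.comp (sb R n K)) = rI K G z := by
  classical
  apply le_antisymm
  · intro p hp
    have h1 : sb R n K p ∈ Ideal.span (G : Set (MvPolynomial (Fin n) R)) := by
      rw [← hK]
      exact hp
    have h2 : ∀ q ∈ Ideal.span (G : Set (MvPolynomial (Fin n) R)),
        Ideal.Quotient.mkₐ R (rI K G z) (rename Sum.inl q) = 0 := by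
      intro q hq
      have h3 : Ideal.span (G : Set (MvPolynomial (Fin n) R)) ≤
          RingHom.ker ((Ideal.Quotient.mkₐ R (rI K G z)).comp (rename Sum.inl)) := by
        rw [Ideal.span_le]
        intro g hg
        change Ideal.Quotient.mkₐ R (rI K G z) (rename Sum.inl g) = 0
        have h4 : sb R n K (rel K G z (Sum.inr ⟨g, hg⟩)) = g := by
          rw [χ_gen]
          conv_rhs => rw [g.as_sum]
          apply Finset.sum_congr rfl
          intro m hm
          have h2 : sb R n K (rename Sum.inl (monomial m (1 : R))) = monomial m 1 := by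
            rw [sb, aeval_rename]
            exact aeval_X_left_apply _
          have h5 : sb R n K (X (Sum.inr (some (z m g)))) = C (((z m g).1 : ℤ) : R) := by
            rw [sb, aeval_X]
            rfl
          rw [h2, h5, hz g hg m hm, C_mul_monomial, mul_one]
        rw [← h4, mk_sb]
        exact Ideal.Quotient.eq_zero_iff_mem.mpr (Ideal.subset_span ⟨_, rfl⟩)
      exact h3 hq
    have h3 := h2 _ h1
    rw [mk_sb] at h3
    exact Ideal.Quotient.eq_zero_iff_mem.mp h3
  · rw [rI, Ideal.span_le]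
    rintro _ ⟨k, rfl⟩
    have h1 := sb_rel K G z hz k
    rw [← hK] at h1
    exact h1

end

/-- Over a noetherian ring in which all elements are integers, every algebra of finite type has a
presentation by sums of monomials. -/
theorem presents_zero_one [IsNoetherianRing R]
    (hR : Function.Surjective (Int.cast : ℤ → R)) : Presents ({0, 1} : Set R) := by
  classical
  apply presents_of
  intro A _ _ _
  obtain ⟨n, φ, G, hs, hK, -⟩ := presents_univ (R := R) A
  choose w hw using hR
  let K : ℕ := ∑ g ∈ G, ∑ m ∈ g.support, (w (coeff m g)).natAbs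
  let z : (Fin n →₀ ℕ) → MvPolynomial (Fin n) R → Cs K := fun m g =>
    if h : w (coeff m g) ∈ Finset.Icc (-(K : ℤ)) K then ⟨_, h⟩ else zr K
  have hz : ∀ g ∈ G, ∀ m ∈ g.support, (((z m g).1 : ℤ) : R) = coeff m g := by
    intro g hg m hm
    have h1 : (w (coeff m g)).natAbs ≤ ∑ m ∈ g.support, (w (coeff m g)).natAbs :=
      Finset.single_le_sum (f := fun m : Fin n →₀ ℕ => (w (coeff m g)).natAbs)
        (fun _ _ => Nat.zero_le _) hm
    have h2 : ∑ m ∈ g.support, (w (coeff m g)).natAbs ≤ K :=
      Finset.single_le_sum (f := fun g : MvPolynomial (Fin n) R =>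
        ∑ m ∈ g.support, (w (coeff m g)).natAbs) (fun _ _ => Nat.zero_le _) hg
    have h3 : w (coeff m g) ∈ Finset.Icc (-(K : ℤ)) K := by
      rw [Finset.mem_Icc]
      omega
    have h4 : z m g = ⟨_, h3⟩ := dif_pos h3
    rw [h4]
    exact hw _
  refine ⟨Vs n K, inferInstance, φ.comp (sb R n K), Finset.univ.image (rel K G z), ?_, ?_, ?_⟩
  · intro a
    obtain ⟨p, rfl⟩ := hs a
    refine ⟨rename Sum.inl p, ?_⟩
    change φ (sb R n K (rename Sum.inl p)) = φ p
    congr 1
    rw [sb, aeval_rename]
    exact aeval_X_left_apply _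
  · rw [ker_sb K G z hz φ hK, rI]
    congr 1
    simp
  · intro g hg m
    obtain ⟨k, -, rfl⟩ := Finset.mem_image.mp hg
    exact coeff_ms_mem _ _

end Pool.Agent.Y116.UV
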