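import Pool.Agent.H95.L.Y116_UV_Uni

/-!
# Presentations by bilinear forms
-/

set_option autoImplicit false

open MvPolynomial

namespace Pool.Agent.Y116.UV

variable {R : Type} [CommRing R]

/-- The bilinear form with the coefficients `b`. -/
noncomputable def bil (β γ : Type) [Fintype β] [Fintype γ] :
    (β → γ → R) →ₗ[R] MvPolynomial (β ⊕ γ) R where
  toFun b := ∑ j, ∑ k, C (b j k) * X (Sum.inl j) * X (Sum.inr k)
  map_add' b c := by
    simp only [Pi.add_apply, C_add, add_mul, Finset.sum_add_distrib]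
  map_smul' r b := by
    simp only [Pi.smul_apply, smul_eq_mul, C_mul, RingHom.id_apply, Finset.smul_sum, smul_eq_C_mul,
      mul_assoc]

lemma bil_apply {β γ : Type} [Fintype β] [Fintype γ] (b : β → γ → R) :
    bil β γ b = ∑ j, ∑ k, C (b j k) * X (Sum.inl j) * X (Sum.inr k) := rfl

/-- the bilinear form `x_j y_k` -/
lemma bil_single {β γ : Type} [Fintype β] [Fintype γ] [DecidableEq β] [DecidableEq γ] (j : β)
    (k : γ) : bil β γ (fun j' k' => if j' = j ∧ k' = k then 1 else 0) =
      (X (Sum.inl j) * X (Sum.inr k) : MvPolynomial (β ⊕ γ) R) := by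
  rw [bil_apply, Finset.sum_eq_single j, Finset.sum_eq_single k]
  · simp
  · intro k' _ hk'
    simp [hk']
  · simp
  · intro j' _ hj'
    apply Finset.sum_eq_zero
    intro k' _
    simp [hj']
  · simp

/-- the bilinear form `x_j y_k + x_j' y_k'` -/
lemma bil_pair {β γ : Type} [Fintype β] [Fintype γ] [DecidableEq β] [DecidableEq γ] (j : β)
    (k : γ) (j' : β) (k' : γ) (h : ¬ (j = j' ∧ k = k')) :
    bil β γ (fun a b => if (a = j ∧ b = k) ∨ (a = j' ∧ b = k') then 1 else 0) =
      (X (Sum.inl j) * X (Sum.inr k) + X (Sum.inl j') * X (Sum.inr k') :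
        MvPolynomial (β ⊕ γ) R) := by
  rw [← bil_single j k, ← bil_single j' k', ← map_add]
  congr 1
  funext a b
  simp only [Pi.add_apply]
  by_cases h1 : a = j ∧ b = k
  · by_cases h2 : a = j' ∧ b = k'
    · exact absurd ⟨h1.1.symm.trans h2.1, h1.2.symm.trans h2.2⟩ h
    · simp [h1]
      intro h3
      exact fun h4 => absurd ⟨h3, h4⟩ h
  · simp [h1]

/-- the bilinear forms with coefficients in `S` -/
def bilIn (S : Set R) (β γ : Type) [Fintype β] [Fintype γ] : Set (MvPolynomial (β ⊕ γ) R) :=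
  {f | ∃ b : β → γ → R, (∀ j k, b j k ∈ S) ∧ bil β γ b = f}

lemma single_mem {S : Set R} (h0 : 0 ∈ S) (h1 : 1 ∈ S) {β γ : Type} [Fintype β] [Fintype γ]
    (j : β) (k : γ) : (X (Sum.inl j) * X (Sum.inr k) : MvPolynomial (β ⊕ γ) R) ∈ bilIn S β γ := by
  classical
  refine ⟨_, fun a b => ?_, bil_single j k⟩
  split_ifs
  · exact h1
  · exact h0

lemma pair_mem {S : Set R} (h0 : 0 ∈ S) (h1 : 1 ∈ S) {β γ : Type} [Fintype β] [Fintype γ]
    (j : β) (k : γ) (j' : β) (k' : γ) (h : ¬ (j = j' ∧ k = k')) :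
    (X (Sum.inl j) * X (Sum.inr k) + X (Sum.inl j') * X (Sum.inr k') :
      MvPolynomial (β ⊕ γ) R) ∈ bilIn S β γ := by
  classical
  refine ⟨_, fun a b => ?_, bil_pair j k j' k' h⟩
  split_ifs
  · exact h1
  · exact h0

lemma zero_mem_bilIn {S : Set R} (h0 : 0 ∈ S) {β γ : Type} [Fintype β] [Fintype γ] :
    (0 : MvPolynomial (β ⊕ γ) R) ∈ bilIn S β γ :=
  ⟨0, fun _ _ => h0, map_zero _⟩

lemma linear_mem {S : Set R} (h0 : 0 ∈ S) {β γ : Type} [Fintype β] [Fintype γ] (c : β → R)
    (hc : ∀ j, c j ∈ S) (k : γ) :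
    (∑ j, C (c j) * (X (Sum.inl j) * X (Sum.inr k)) : MvPolynomial (β ⊕ γ) R) ∈ bilIn S β γ := by
  classical
  refine ⟨fun j k' => if k' = k then c j else 0, fun j k' => ?_, ?_⟩
  · dsimp only
    split_ifs
    · exact hc j
    · exact h0
  · rw [bil_apply]
    apply Finset.sum_congr rfl
    intro j _
    rw [Finset.sum_eq_single k]
    · rw [if_pos rfl, mul_assoc]
    · intro k' _ hk'
      rw [if_neg hk', map_zero, zero_mul, zero_mul]
    · intro h
      exact absurd (Finset.mem_univ k) h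

/-- The ring of the hypersurface `T = 1` and Jouanolou's ring for the forms `T i`. -/
noncomputable def hypEquiv {β γ : Type} [Fintype β] [Fintype γ] {m : ℕ} (T : Fin m → β → γ → R) :
    Hyp T ≃ₐ[R] Jou (fun i => bil β γ (T i)) :=
  Ideal.quotientEquivAlg _ _ (sumAlgEquiv R (Fin m) (β ⊕ γ)) (by
    rw [Ideal.map_span, Set.image_singleton]
    congr 2
    simp only [RingHom.coe_coe, map_sub, map_one, tri, map_sum, map_mul, sumAlgEquiv_C_inl,
      sumAlgEquiv_X_inl, sumAlgEquiv_X_inr, bil_apply]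
    congr 1
    apply Finset.sum_congr rfl
    intro i _
    rw [Finset.sum_mul]
    apply Finset.sum_congr rfl
    intro j _
    rw [Finset.sum_mul]
    apply Finset.sum_congr rfl
    intro k _
    ring)

/-- Renaming the variables. -/
noncomputable def hypRename {α β γ α' β' γ' : Type} [Fintype α] [Fintype β] [Fintype γ]
    [Fintype α'] [Fintype β'] [Fintype γ'] (a : α ≃ α') (b : β ≃ β') (c : γ ≃ γ')
    (T : α' → β' → γ' → R) : Hyp (fun i j k => T (a i) (b j) (c k)) ≃ₐ[R] Hyp T :=
  Ideal.quotientEquivAlg _ _ (renameEquiv R (Equiv.sumCongr a (Equiv.sumCongr b c))) (by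
    rw [Ideal.map_span, Set.image_singleton]
    congr 2
    simp only [RingHom.coe_coe, map_sub, map_one, tri, map_sum, map_mul, renameEquiv_apply,
      rename_C, rename_X, Equiv.sumCongr_apply, Sum.map_inl, Sum.map_inr]
    congr 1
    rw [← a.sum_comp]
    apply Finset.sum_congr rfl
    intro i _
    rw [← b.sum_comp]
    apply Finset.sum_congr rfl
    intro j _
    rw [← c.sum_comp])

end Pool.Agent.Y116.UV
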