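import Pool.Agent.H95.L.Z125_UN_Bnd

/-!
# Systems of linear equations over locally closed subschemes of an affine space
-/

set_option autoImplicit false

open CategoryTheory AlgebraicGeometry MvPolynomial Pool.Agent.Y116.UV

namespace Pool.Agent.Z125.UN

section same

variable {R : Type} [CommRing R] {σ κ κ' : Type} {G : κ → MvPolynomial σ R} {w : MvPolynomial σ R}
  {G' : κ' → MvPolynomial σ R} {w' : MvPolynomial σ R}

/-- The same coordinates, equivalent relations. -/
noncomputable def pcSame (h1 : ∀ k, pc G' w' (G k) = 0) (h2 : IsUnit (pc G' w' w))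
    (h3 : ∀ k, pc G w (G' k) = 0) (h4 : IsUnit (pc G w w')) : Pc G w ≃ₐ[R] Pc G' w' :=
  pcEquiv (pv G' w') (fun k => by rw [pc_aeval]; exact h1 k) (by rw [pc_aeval]; exact h2)
    (pv G w) (fun k => by rw [pc_aeval]; exact h3 k) (by rw [pc_aeval]; exact h4)
    (fun s => pcLift_pv _ _ _ _ _ s) (fun s => pcLift_pv _ _ _ _ _ s)

end same

section

variable {R : Type} [CommRing R] {τ : Type}

/-- the relations `g = 0` and the linear equations with the matrix `M` -/
noncomputable def sys {κ α β : Type} [Fintype β] (g : κ → MvPolynomial τ R)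
    (M : α → β → MvPolynomial τ R) : κ ⊕ α → MvPolynomial (τ ⊕ β) R :=
  Sum.elim (fun k => rename Sum.inl (g k))
    (fun i => ∑ j, rename Sum.inl (M i j) * X (Sum.inr j))

lemma sys_inl {κ α β : Type} [Fintype β] (g : κ → MvPolynomial τ R)
    (M : α → β → MvPolynomial τ R) (k : κ) : sys g M (Sum.inl k) = rename Sum.inl (g k) := rfl

lemma sys_inr {κ α β : Type} [Fintype β] (g : κ → MvPolynomial τ R)
    (M : α → β → MvPolynomial τ R) (i : α) :
    sys g M (Sum.inr i) = ∑ j, rename Sum.inl (M i j) * X (Sum.inr j) := rfl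

section closed

variable {κ α β : Type} [Fintype β] (g : κ → MvPolynomial τ R) (w : MvPolynomial τ R)
  (M : α → β → MvPolynomial τ R)

lemma row_zero (u : MvPolynomial (τ ⊕ β) R) (i : α) :
    ∑ j, pc (sys g M) u (rename Sum.inl (M i j)) * pv (sys g M) u (Sum.inr j) = 0 := by
  have h := pc_rel (sys g M) u (Sum.inr i)
  rw [sys_inr, map_sum] at h
  rw [← h]
  apply Finset.sum_congr rfl
  intro j _
  rw [map_mul]
  rfl

/-- a vanishing matrix -/
noncomputable def zeroE (h : ∀ i j, M i j = 0) :
    Pc (rl g β) (rename Sum.inl w) ≃ₐ[R] Pc (sys g M) (rename Sum.inl w) :=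
  pcSame (fun k => pc_rel (sys g M) _ (Sum.inl k)) (pc_unit _ _)
    (by
      rintro (k | i)
      · exact pc_rel (rl g β) _ k
      · rw [sys_inr]
        simp only [h, map_zero, zero_mul, Finset.sum_const_zero])
    (pc_unit _ _)

open Classical in
/-- the matrix with a zero in the place `(i, j)` -/
noncomputable def zap (i : α) (j : β) (i' : α) (j' : β) : MvPolynomial τ R :=
  if i' = i ∧ j' = j then 0 else M i' j'

omit [Fintype β] in
lemma zap_self (i : α) (j : β) : zap M i j i j = 0 := if_pos ⟨rfl, rfl⟩

omit [Fintype β] in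
lemma zap_ne (i : α) (j : β) {i' : α} {j' : β} (h : ¬ (i' = i ∧ j' = j)) :
    zap M i j i' j' = M i' j' := if_neg h

/-- rows of the modified matrix -/
lemma zap_row (i : α) (j : β) (i' : α) : ∃ c : MvPolynomial (τ ⊕ β) R,
    ∑ j', rename Sum.inl (M i' j') * (X (Sum.inr j') : MvPolynomial (τ ⊕ β) R) =
      ∑ j', rename Sum.inl (zap M i j i' j') * X (Sum.inr j') + rename Sum.inl (M i j) * c := by
  classical
  by_cases h : i' = i
  · subst h
    refine ⟨X (Sum.inr j), ?_⟩
    rw [← Finset.add_sum_erase _ _ (Finset.mem_univ j),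
      ← Finset.add_sum_erase _ (fun j' => rename Sum.inl (zap M i' j i' j') * X (Sum.inr j'))
        (Finset.mem_univ j), zap_self, map_zero, zero_mul, zero_add, add_comm]
    congr 1
    apply Finset.sum_congr rfl
    intro j' hj'
    rw [zap_ne M i' j fun h => (Finset.ne_of_mem_erase hj') h.2]
  · refine ⟨0, ?_⟩
    rw [mul_zero, add_zero]
    apply Finset.sum_congr rfl
    intro j' _
    rw [zap_ne M i j fun h2 => h h2.1]

/-- the closed part where an entry vanishes -/
noncomputable def zapE (i : α) (j : β) :
    Pc (sys (adj g (M i j)) (zap M i j)) (rename Sum.inl w) ≃ₐ[R]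
      Pc (adj (sys g M) (rename Sum.inl (M i j))) (rename Sum.inl w) :=
  pcSame
    (by
      rintro ((_ | k) | i')
      · exact pc_rel (adj (sys g M) (rename Sum.inl (M i j))) _ none
      · exact pc_rel (adj (sys g M) (rename Sum.inl (M i j))) _ (some (Sum.inl k))
      · obtain ⟨c, hc⟩ := zap_row M i j i'
        have h1 := pc_rel (adj (sys g M) (rename Sum.inl (M i j))) (rename Sum.inl w)
          (some (Sum.inr i'))
        have h2 := pc_rel (adj (sys g M) (rename Sum.inl (M i j))) (rename Sum.inl w) none
        change pc _ _ (∑ j', rename Sum.inl (M i' j') * X (Sum.inr j')) = 0 at h1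
        change pc _ _ (rename Sum.inl (M i j)) = 0 at h2
        rw [hc, map_add, map_mul, h2, zero_mul, add_zero] at h1
        exact h1)
    (pc_unit _ _)
    (by
      rintro (_ | k | i')
      · exact pc_rel (sys (adj g (M i j)) (zap M i j)) _ (Sum.inl none)
      · exact pc_rel (sys (adj g (M i j)) (zap M i j)) _ (Sum.inl (some k))
      · obtain ⟨c, hc⟩ := zap_row M i j i'
        have h1 := pc_rel (sys (adj g (M i j)) (zap M i j)) (rename Sum.inl w) (Sum.inr i')
        have h2 := pc_rel (sys (adj g (M i j)) (zap M i j)) (rename Sum.inl w) (Sum.inl none)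
        change pc _ _ (∑ j', rename Sum.inl (zap M i j i' j') * X (Sum.inr j')) = 0 at h1
        change pc _ _ (rename Sum.inl (M i j)) = 0 at h2
        change pc _ _ (∑ j', rename Sum.inl (M i' j') * X (Sum.inr j')) = 0
        rw [hc, map_add, map_mul, h2, zero_mul, add_zero, h1])
    (pc_unit _ _)

end closed

section pivot

variable {κ α β : Type} [Fintype β] [DecidableEq β] (g : κ → MvPolynomial τ R)
  (w : MvPolynomial τ R) (M : α → β → MvPolynomial τ R) (i : α) (j : β)

/-- the matrix after the elimination of the variable `j` by the equation `i` -/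
noncomputable def piv (i' : α) (j' : {j' : β // j' ≠ j}) : MvPolynomial τ R :=
  M i j * M i' j'.1 - M i' j * M i j'.1

/-- the ring before the elimination -/
abbrev K0 : Type := Pc (sys g M) (rename Sum.inl w * rename Sum.inl (M i j))

/-- the ring after the elimination -/
abbrev K1 : Type := Pc (sys g (piv M i j)) (rename Sum.inl w * rename Sum.inl (M i j))

/-- functions of the parameters -/
noncomputable def p0 : MvPolynomial τ R →ₐ[R] K0 g w M i j := (pc _ _).comp (rename Sum.inl)

/-- functions of the parameters -/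
noncomputable def p1 : MvPolynomial τ R →ₐ[R] K1 g w M i j := (pc _ _).comp (rename Sum.inl)

omit [DecidableEq β] in
lemma p0_units : IsUnit (p0 g w M i j w) ∧ IsUnit (p0 g w M i j (M i j)) :=
  ⟨pc_unit_left _ _ _, pc_unit_right _ _ _⟩

lemma p1_units : IsUnit (p1 g w M i j w) ∧ IsUnit (p1 g w M i j (M i j)) :=
  ⟨pc_unit_left _ _ _, pc_unit_right _ _ _⟩

/-- the inverse of the pivot -/
noncomputable def u0i : K0 g w M i j := ↑(p0_units g w M i j).2.unit⁻¹

/-- the inverse of the pivot -/
noncomputable def u1i : K1 g w M i j := ↑(p1_units g w M i j).2.unit⁻¹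

omit [DecidableEq β] in
lemma u0i_mul : p0 g w M i j (M i j) * u0i g w M i j = 1 :=
  (p0_units g w M i j).2.mul_val_inv

lemma u1i_mul : p1 g w M i j (M i j) * u1i g w M i j = 1 :=
  (p1_units g w M i j).2.mul_val_inv

/-- the coordinates -/
noncomputable def y0 (j' : β) : K0 g w M i j := pv _ _ (Sum.inr j')

/-- the coordinates -/
noncomputable def y1 (j' : {j' : β // j' ≠ j}) : K1 g w M i j := pv _ _ (Sum.inr j')

/-- the values of the coordinates -/
noncomputable def pa : τ ⊕ β → K1 g w M i j :=
  Sum.elim (fun t => p1 g w M i j (X t)) fun j' =>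
    if h : j' = j then -u1i g w M i j *
      ∑ j'' : {j' : β // j' ≠ j}, p1 g w M i j (M i j''.1) * y1 g w M i j j''
    else y1 g w M i j ⟨j', h⟩

/-- the values of the coordinates -/
noncomputable def pb : τ ⊕ {j' : β // j' ≠ j} → K0 g w M i j :=
  Sum.elim (fun t => p0 g w M i j (X t)) fun j' => y0 g w M i j j'.1

lemma pa_inl (p : MvPolynomial τ R) :
    aeval (pa g w M i j) (rename Sum.inl p) = p1 g w M i j p := by
  have h : (aeval (pa g w M i j)).comp (rename Sum.inl) = p1 g w M i j := by
    apply MvPolynomial.algHom_ext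
    intro t
    rw [AlgHom.comp_apply, rename_X, aeval_X]
    rfl
  rw [← h]
  rfl

omit [DecidableEq β] in
lemma pb_inl (p : MvPolynomial τ R) :
    aeval (pb g w M i j) (rename Sum.inl p) = p0 g w M i j p := by
  have h : (aeval (pb g w M i j)).comp (rename Sum.inl) = p0 g w M i j := by
    apply MvPolynomial.algHom_ext
    intro t
    rw [AlgHom.comp_apply, rename_X, aeval_X]
    rfl
  rw [← h]
  rfl

lemma pa_self : pa g w M i j (Sum.inr j) = -u1i g w M i j *
    ∑ j'' : {j' : β // j' ≠ j}, p1 g w M i j (M i j''.1) * y1 g w M i j j'' := dif_pos rfl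

lemma pa_ne (j' : {j' : β // j' ≠ j}) : pa g w M i j (Sum.inr j'.1) = y1 g w M i j j' :=
  dif_neg j'.2

omit [DecidableEq β] in
lemma pb_inr (j' : {j' : β // j' ≠ j}) : pb g w M i j (Sum.inr j') = y0 g w M i j j'.1 := rfl

lemma row0 (i' : α) : p0 g w M i j (M i' j) * y0 g w M i j j +
    ∑ j' : {j' : β // j' ≠ j}, p0 g w M i j (M i' j'.1) * y0 g w M i j j'.1 = 0 := by
  have h := row_zero g M (rename Sum.inl w * rename Sum.inl (M i j)) i'
  rw [Fintype.sum_eq_add_sum_subtype_ne _ j] at h
  exact h

lemma row1 (i' : α) : ∑ j' : {j' : β // j' ≠ j}, (p1 g w M i j (M i j) *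
    p1 g w M i j (M i' j'.1) - p1 g w M i j (M i' j) * p1 g w M i j (M i j'.1)) *
      y1 g w M i j j' = 0 := by
  have h := row_zero g (piv M i j) (rename Sum.inl w * rename Sum.inl (M i j)) i'
  rw [← h]
  apply Finset.sum_congr rfl
  intro j' _
  congr 1
  have h2 : p1 g w M i j (piv M i j i' j') = p1 g w M i j (M i j) *
      p1 g w M i j (M i' j'.1) - p1 g w M i j (M i' j) * p1 g w M i j (M i j'.1) := by
    rw [piv, map_sub (p1 g w M i j), map_mul (p1 g w M i j), map_mul (p1 g w M i j)]
  exact h2.symm

/-- from the ring after the elimination -/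
noncomputable def pbL : K1 g w M i j →ₐ[R] K0 g w M i j :=
  pcLift _ _ (pb g w M i j)
    (by
      rintro (k | i')
      · rw [sys_inl, pb_inl]
        exact pc_rel (sys g M) _ (Sum.inl k)
      · rw [sys_inr, map_sum (aeval (pb g w M i j))]
        have h1 : ∀ j' : {j' : β // j' ≠ j}, aeval (pb g w M i j)
            (rename Sum.inl (piv M i j i' j') * X (Sum.inr j')) =
            p0 g w M i j (M i j) * (p0 g w M i j (M i' j'.1) * y0 g w M i j j'.1) -
            p0 g w M i j (M i' j) * (p0 g w M i j (M i j'.1) * y0 g w M i j j'.1) := by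
          intro j'
          rw [map_mul (aeval (pb g w M i j)), pb_inl, aeval_X, pb_inr, piv,
            map_sub (p0 g w M i j), map_mul (p0 g w M i j), map_mul (p0 g w M i j)]
          ring
        rw [Finset.sum_congr rfl fun j' _ => h1 j', Finset.sum_sub_distrib, ← Finset.mul_sum,
          ← Finset.mul_sum]
        linear_combination p0 g w M i j (M i j) * row0 g w M i j i' -
          p0 g w M i j (M i' j) * row0 g w M i j i)
    (by
      rw [map_mul (aeval (pb g w M i j)), pb_inl, pb_inl]
      exact (p0_units g w M i j).1.mul (p0_units g w M i j).2)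

/-- from the ring before the elimination -/
noncomputable def paL : K0 g w M i j →ₐ[R] K1 g w M i j :=
  pcLift _ _ (pa g w M i j)
    (by
      rintro (k | i')
      · rw [sys_inl, pa_inl]
        exact pc_rel (sys g (piv M i j)) _ (Sum.inl k)
      · rw [sys_inr, Fintype.sum_eq_add_sum_subtype_ne _ j, map_add (aeval (pa g w M i j)),
          map_mul (aeval (pa g w M i j)), pa_inl, aeval_X, pa_self,
          map_sum (aeval (pa g w M i j))]
        have h1 : ∀ j' : {j' : β // j' ≠ j}, aeval (pa g w M i j)
            (rename Sum.inl (M i' j'.1) * X (Sum.inr j'.1)) =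
            p1 g w M i j (M i' j'.1) * y1 g w M i j j' := by
          intro j'
          rw [map_mul (aeval (pa g w M i j)), pa_inl, aeval_X, pa_ne]
        rw [Finset.sum_congr rfl fun j' _ => h1 j']
        have h2 := row1 g w M i j i'
        simp only [sub_mul, mul_assoc] at h2
        rw [Finset.sum_sub_distrib, ← Finset.mul_sum, ← Finset.mul_sum] at h2
        have h3 := u1i_mul g w M i j
        linear_combination u1i g w M i j * h2 - (∑ j' : {j' : β // j' ≠ j},
          p1 g w M i j (M i' j'.1) * y1 g w M i j j') * h3)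
    (by
      rw [map_mul (aeval (pa g w M i j)), pa_inl, pa_inl]
      exact (p1_units g w M i j).1.mul (p1_units g w M i j).2)

lemma pbL_p1 (p : MvPolynomial τ R) : pbL g w M i j (p1 g w M i j p) = p0 g w M i j p := by
  rw [← pb_inl]
  exact pcLift_pc _ _ _ _ _ _

lemma paL_p0 (p : MvPolynomial τ R) : paL g w M i j (p0 g w M i j p) = p1 g w M i j p := by
  rw [← pa_inl]
  exact pcLift_pc _ _ _ _ _ _

lemma pbL_y1 (j' : {j' : β // j' ≠ j}) : pbL g w M i j (y1 g w M i j j') = y0 g w M i j j'.1 :=
  pcLift_pv _ _ _ _ _ _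

lemma paL_y0 (j' : β) : paL g w M i j (y0 g w M i j j') = pa g w M i j (Sum.inr j') :=
  pcLift_pv _ _ _ _ _ _

lemma pbL_u1i : pbL g w M i j (u1i g w M i j) = u0i g w M i j := by
  have h1 := congrArg (pbL g w M i j) (u1i_mul g w M i j)
  rw [map_mul (pbL g w M i j), map_one (pbL g w M i j), pbL_p1] at h1
  have h2 := u0i_mul g w M i j
  linear_combination u0i g w M i j * h1 - pbL g w M i j (u1i g w M i j) * h2

lemma pbL_pa : pbL g w M i j (pa g w M i j (Sum.inr j)) = y0 g w M i j j := by
  rw [pa_self, map_mul (pbL g w M i j), map_neg (pbL g w M i j), map_sum (pbL g w M i j), pbL_u1i]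
  have h1 : ∀ j' : {j' : β // j' ≠ j}, pbL g w M i j (p1 g w M i j (M i j'.1) * y1 g w M i j j') =
      p0 g w M i j (M i j'.1) * y0 g w M i j j'.1 := by
    intro j'
    rw [map_mul (pbL g w M i j), pbL_p1, pbL_y1]
  rw [Finset.sum_congr rfl fun j' _ => h1 j']
  linear_combination y0 g w M i j j * u0i_mul g w M i j - u0i g w M i j * row0 g w M i j i

omit [DecidableEq β] in
lemma p0_X (t : τ) : p0 g w M i j (X t) = pv _ _ (Sum.inl t) := by
  rw [p0, AlgHom.comp_apply, rename_X]
  rfl

lemma p1_X (t : τ) : p1 g w M i j (X t) = pv _ _ (Sum.inl t) := by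
  rw [p1, AlgHom.comp_apply, rename_X]
  rfl

/-- The elimination of a variable. -/
noncomputable def pivE : K1 g w M i j ≃ₐ[R] K0 g w M i j :=
  AlgEquiv.ofAlgHom (pbL g w M i j) (paL g w M i j)
    (by
      apply pc_ext
      rintro (t | j')
      · change pbL g w M i j (paL g w M i j (pv _ _ (Sum.inl t))) = pv _ _ (Sum.inl t)
        rw [← p0_X, paL_p0, pbL_p1]
      · change pbL g w M i j (paL g w M i j (y0 g w M i j j')) = y0 g w M i j j'
        rw [paL_y0]
        by_cases h : j' = j
        · subst h
          exact pbL_pa g w M i j'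
        · have h2 := pa_ne g w M i j ⟨j', h⟩
          change pa g w M i j (Sum.inr j') = _ at h2
          rw [h2, pbL_y1])
    (by
      apply pc_ext
      rintro (t | j')
      · change paL g w M i j (pbL g w M i j (pv _ _ (Sum.inl t))) = pv _ _ (Sum.inl t)
        rw [← p1_X, pbL_p1, paL_p0]
      · change paL g w M i j (pbL g w M i j (y1 g w M i j j')) = y1 g w M i j j'
        rw [pbL_y1, paL_y0, pa_ne])

end pivot

section pieces

variable {sep : Prop} {P : Sch R → Prop} (hP : Bnd sep P) [Finite τ]

include hP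

/-- If the property is true for all locally closed subschemes of an affine space, then it is true for
the solutions of systems of linear equations over these. -/
theorem pieces (hN : ∀ (κ : Type) (g : κ → MvPolynomial τ R) (w : MvPolynomial τ R),
      P (aff R (Pc g w))) (n : ℕ) :
    ∀ (β : Type) (_ : Fintype β), Fintype.card β = n → ∀ (α : Type) (_ : Fintype α) (q : ℕ)
      (κ : Type) (g : κ → MvPolynomial τ R) (w : MvPolynomial τ R)
      (M : α → β → MvPolynomial τ R),
      Nat.card {p : α × β // M p.1 p.2 ≠ 0} ≤ q → P (aff R (Pc (sys g M) (rename Sum.inl w))) := by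
  classical
  induction n using Nat.strong_induction_on with
  | _ n ihn =>
  intro β _ hβ α _ q
  induction q with
  | zero =>
    intro κ g w M hM
    have h0 : ∀ i j, M i j = 0 := by
      intro i j
      by_contra h
      have h1 : Nat.card {p : α × β // M p.1 p.2 ≠ 0} = 0 := Nat.le_zero.mp hM
      rw [Nat.card_eq_zero] at h1
      rcases h1 with h1 | h1
      · exact h1.false ⟨(i, j), h⟩
      · exact h1.not_finite inferInstance
    exact iso_alg hP.toUni (zeroE g w M h0) (pc_poly hP β (hN κ g w))
  | succ q ihq =>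
    intro κ g w M hM
    by_cases h0 : ∀ i j, M i j = 0
    · exact iso_alg hP.toUni (zeroE g w M h0) (pc_poly hP β (hN κ g w))
    · push Not at h0
      obtain ⟨i, j, hij⟩ := h0
      refine pc_total hP (e := rename Sum.inl (M i j)) ?_ ?_
      · refine iso_alg hP.toUni (zapE g w M i j) (ihq (Option κ) _ w _ ?_)
        have h1 : Nat.card {p : α × β // zap M i j p.1 p.2 ≠ 0} <
            Nat.card {p : α × β // M p.1 p.2 ≠ 0} := by
          let f : {p : α × β // zap M i j p.1 p.2 ≠ 0} → {p : α × β // M p.1 p.2 ≠ 0} := fun p =>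
            ⟨p.1, by
              have h2 := p.2
              by_cases h3 : p.1.1 = i ∧ p.1.2 = j
              · rw [h3.1, h3.2, zap_self] at h2
                exact absurd rfl h2
              · rwa [zap_ne M i j h3] at h2⟩
          rw [Nat.card_eq_fintype_card, Nat.card_eq_fintype_card]
          refine Fintype.card_lt_of_injective_of_notMem f ?_ (b := ⟨(i, j), hij⟩) ?_
          · intro x y h
            exact Subtype.ext (congrArg (fun z => z.1) h)
          · rintro ⟨x, hx⟩
            have h3 : x.1 = (i, j) := congrArg (fun z => z.1) hx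
            have h2 := x.2
            rw [h3] at h2
            exact h2 (zap_self M i j)
        omega
      · refine iso_alg hP.toUni (pivE g w M i j) ?_
        have hc : Fintype.card {j' : β // j' ≠ j} = n - 1 := by
          rw [Fintype.card_subtype_compl, Fintype.card_subtype_eq, hβ]
        have hn : 0 < n := by
          rw [← hβ]
          exact Fintype.card_pos_iff.mpr ⟨j⟩
        have h1 := ihn (n - 1) (by omega) {j' : β // j' ≠ j} inferInstance hc α inferInstance
          _ κ g (w * M i j) (piv M i j) le_rfl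
        rwa [map_mul] at h1

end pieces

end

end Pool.Agent.Z125.UN
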