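import Pool.Agent.H95.L.Z125_UN_Red

/-!
# The reduced cone of a closed subscheme of an affine space
-/

set_option autoImplicit false

open CategoryTheory AlgebraicGeometry MvPolynomial Pool.Agent.Y116.UV

namespace Pool.Agent.Z125.UN

section

variable {R : Type} [CommRing R] {N D : ℕ} (G : Finset (MvPolynomial (Fin N) R))

open Classical in
/-- the coefficients of `u_m z_k` -/
noncomputable def bas (R : Type) [CommRing R] (m : Mon N D) (k : Fin (N + 1)) :
    Mon N D → Fin (N + 1) → R :=
  fun m' k' => if m' = m ∧ k' = k then 1 else 0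

lemma bil_bas (m : Mon N D) (k : Fin (N + 1)) :
    bil (Mon N D) (Fin (N + 1)) (bas R m k) = X (Sum.inl m) * X (Sum.inr k) := by
  classical
  rw [← bil_single m k]
  refine congrArg _ ?_
  funext a b
  unfold bas
  split_ifs <;> rfl

/-- the system -/
noncomputable def TT : (Mon N D × Fin N) ⊕ G → Mon N D → Fin (N + 1) → R
  | Sum.inl (m, i) => if h : (m.1 + Finsupp.single i 1).degree ≤ D then
      bas R m i.succ - bas R ⟨_, h⟩ 0 else 0
  | Sum.inr g => fun m k => if k = 0 then coeff m.1 g.1 else 0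

/-- the system with the additional equation `u_0 z_0 = 0` -/
noncomputable def TP (o : Option ((Mon N D × Fin N) ⊕ G)) : Mon N D → Fin (N + 1) → R :=
  o.elim (bas R (mo N D) 0) (TT G)

/-- the function `u_0 z_0` -/
noncomputable def uz (R : Type) [CommRing R] (N D : ℕ) :
    MvPolynomial (Mon N D ⊕ Fin (N + 1)) R := X (Sum.inl (mo N D)) * X (Sum.inr 0)

lemma adj_TT : adj (bl (TT (D := D) G)) (uz R N D) = bl (TP (D := D) G) := by
  funext o
  rcases o with _ | i
  · exact (bil_bas (mo N D) 0).symm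
  · rfl

/-- the ring of the open part `u_0 z_0 ≠ 0` of the zero set -/
abbrev LC (D : ℕ) : Type := Pc (bl (TT (D := D) G)) (1 * uz R N D)

/-- the coordinates -/
noncomputable def lu (m : Mon N D) : LC G D := pv _ _ (Sum.inl m)

/-- the coordinates -/
noncomputable def lz (k : Fin (N + 1)) : LC G D := pv _ _ (Sum.inr k)

lemma l_units : IsUnit (lu G (mo N D)) ∧ IsUnit (lz (D := D) G 0) := by
  have h := pc_unit_right (bl (TT (D := D) G)) 1 (uz R N D)
  rw [uz, map_mul (pc _ _)] at h
  exact ⟨isUnit_of_mul_isUnit_left h, isUnit_of_mul_isUnit_right h⟩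

/-- the inverse of `z_0` -/
noncomputable def zi : LC G D := ↑(l_units (D := D) G).2.unit⁻¹

lemma zi_mul : lz G 0 * zi (D := D) G = 1 := (l_units (D := D) G).2.mul_val_inv

lemma TT_inr (g : G) (m : Mon N D) (k : Fin (N + 1)) :
    TT G (Sum.inr g) m k = if k = 0 then coeff m.1 g.1 else 0 := rfl

/-- the functions of the parameters -/
noncomputable def lo (D : ℕ) : MvPolynomial (Fin N) R →ₐ[R] LC G D :=
  aeval fun i => lz G i.succ * zi G

lemma lo_X (i : Fin N) : lo G D (X i) = lz G i.succ * zi G := by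
  rw [lo, aeval_X]

lemma l_mul (m : Mon N D) (i : Fin N) (h : (m.1 + Finsupp.single i 1).degree ≤ D) :
    lu G m * lz G i.succ = lu G ⟨_, h⟩ * lz G 0 := by
  have h1 := pc_rel (bl (TT (D := D) G)) (1 * uz R N D) (Sum.inl (m, i))
  have h2 : bl (TT (D := D) G) (Sum.inl (m, i)) =
      X (Sum.inl m) * X (Sum.inr i.succ) - X (Sum.inl ⟨_, h⟩) * X (Sum.inr 0) := by
    rw [bl, TT, dif_pos h, map_sub, bil_bas, bil_bas]
  rw [h2, map_sub (pc _ _), map_mul (pc _ _), map_mul (pc _ _)] at h1
  exact sub_eq_zero.mp h1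

lemma l_rel (g : G) : (∑ m : Mon N D, algebraMap R (LC G D) (coeff m.1 g.1) * lu G m) *
    lz G 0 = 0 := by
  have h1 := pc_rel (bl (TT (D := D) G)) (1 * uz R N D) (Sum.inr g)
  rw [← pc_aeval, aeval_bl] at h1
  refine Eq.trans ?_ h1
  rw [Finset.sum_mul]
  apply Finset.sum_congr rfl
  intro m _
  rw [Fin.sum_univ_succ]
  have h2 : ∀ k : Fin N, algebraMap R (LC G D) (TT (D := D) G (Sum.inr g) m k.succ) *
      pv _ _ (Sum.inr k.succ) = 0 := by
    intro k
    rw [TT_inr, if_neg (Fin.succ_ne_zero k), map_zero, zero_mul]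
  have h3 : TT (D := D) G (Sum.inr g) m 0 = coeff m.1 g.1 := by rw [TT_inr, if_pos rfl]
  rw [Finset.sum_congr rfl fun k _ => h2 k, Finset.sum_const_zero, add_zero, h3]
  change _ = (algebraMap R (LC G D) (coeff m.1 g.1) * lz G 0) * lu G m
  ring

lemma lo_monomial : ∀ (d : ℕ) (m : Fin N →₀ ℕ) (h : m.degree ≤ D), m.degree = d →
    lo G D (monomial m 1) * lu G (mo N D) = lu G ⟨m, h⟩ := by
  intro d
  induction d with
  | zero =>
    intro m h hm
    have h0 : m = 0 := (Finsupp.degree_eq_zero_iff m).mp hm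
    subst h0
    have e : lo G D (monomial 0 1) = 1 := map_one _
    rw [e, one_mul]
    rfl
  | succ d ih =>
    intro m h hm
    have hne : m ≠ 0 := by
      rintro rfl
      simp at hm
    obtain ⟨i, hi⟩ := Finsupp.support_nonempty_iff.mpr hne
    have hi1 : 1 ≤ m i := Nat.one_le_iff_ne_zero.mpr (Finsupp.mem_support_iff.mp hi)
    obtain ⟨m', rfl⟩ : ∃ m', m = m' + Finsupp.single i 1 :=
      ⟨m - Finsupp.single i 1, by
        rw [tsub_add_cancel_of_le]
        rw [Finsupp.single_le_iff]
        exact hi1⟩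
    have hdeg : (m' + Finsupp.single i 1).degree = m'.degree + 1 := by
      rw [map_add, Finsupp.degree_single]
    have hm' : m'.degree ≤ D := by omega
    have h1 := ih m' hm' (by omega)
    have h2 : (monomial (m' + Finsupp.single i 1) (1 : R)) = monomial m' 1 * X i := by
      rw [X, monomial_mul, one_mul]
    rw [h2, map_mul (lo G D), lo_X]
    have h3 := l_mul G ⟨m', hm'⟩ i h
    have h4 := zi_mul (D := D) G
    linear_combination (lz G i.succ * zi G) * h1 + zi G * h3 + lu G ⟨_, h⟩ * h4

variable (hd : ∀ g ∈ G, ∀ m ∈ g.support, m.degree ≤ D)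

include hd in
lemma lo_rel (g : G) : lo G D g.1 = 0 := by
  have h1 := l_rel (D := D) G g
  have h2 : (∑ m : Mon N D, algebraMap R (LC G D) (coeff m.1 g.1) * lu G m) =
      lo G D g.1 * lu G (mo N D) := by
    rw [hom_eq_sum (lo G D) g.1 (hd g.1 g.2), Finset.sum_mul]
    apply Finset.sum_congr rfl
    intro m _
    rw [mul_assoc, lo_monomial G _ m.1 m.2 rfl]
  rw [h2] at h1
  have h3 := (l_units (D := D) G).2.mul_left_eq_zero.mp h1
  exact (l_units (D := D) G).1.mul_left_eq_zero.mp h3

/-- the relations of the closed subscheme -/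
def gr (g : G) : MvPolynomial (Fin N) R := g.1

/-- the product with two multiplicative groups -/
abbrev G2 : Type := Gm (rl (gr G) Unit) (rename Sum.inl 1 * xs)

/-- functions on the first factor -/
noncomputable def ct : MvPolynomial (Fin N) R →ₐ[R] G2 G :=
  ((pc _ _).comp (rename Sum.inl)).comp (rename Sum.inl)

/-- the first unit -/
noncomputable def c1 : G2 G := pv _ _ (Sum.inl (Sum.inr ()))

/-- the second unit -/
noncomputable def c2 : G2 G := pv _ _ (Sum.inr ())

lemma c2_unit : IsUnit (c2 G) := gs_unit _ _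

lemma c1_unit : IsUnit (c1 G) := by
  have h := pc_unit_left (rl (rl (gr G) Unit) Unit) (rename Sum.inl (rename Sum.inl 1 * xs)) xs
  have h0 : (rename Sum.inl (rename Sum.inl 1 * xs : MvPolynomial (Fin N ⊕ Unit) R) :
      MvPolynomial ((Fin N ⊕ Unit) ⊕ Unit) R) =
      rename Sum.inl (rename Sum.inl 1) * X (Sum.inl (Sum.inr ())) := by
    rw [map_mul, xs, rename_X]
  have h2 : pc (rl (rl (gr G) Unit) Unit) (rename Sum.inl (rename Sum.inl 1 * xs) * xs)
      (rename Sum.inl (rename Sum.inl 1 * xs)) =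
      pc (rl (rl (gr G) Unit) Unit) (rename Sum.inl (rename Sum.inl 1 * xs) * xs)
        (rename Sum.inl (rename Sum.inl 1)) * c1 G := (congrArg _ h0).trans (map_mul _ _ _)
  rw [h2] at h
  exact isUnit_of_mul_isUnit_right h

lemma ct_rel (g : G) : ct G g.1 = 0 :=
  pc_rel (rl (rl (gr G) Unit) Unit) (rename Sum.inl (rename Sum.inl 1 * xs) * xs) g

lemma ct_X (i : Fin N) : ct G (X i) = pv _ _ (Sum.inl (Sum.inl i)) := by
  rw [ct, AlgHom.comp_apply, AlgHom.comp_apply, rename_X, rename_X]
  rfl

/-- the values of the coordinates of the cone -/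
noncomputable def ka (D : ℕ) : Mon N D ⊕ Fin (N + 1) → G2 G :=
  Sum.elim (fun m => ct G (monomial m.1 1) * c1 G)
    (Fin.cases (c2 G) fun i => ct G (X i) * c2 G)

lemma ka_mo : ka G D (Sum.inl (mo N D)) = c1 G := by
  have e : ct G (monomial (mo N D).1 1) = 1 := map_one _
  rw [ka, Sum.elim_inl, e, one_mul]

lemma ka_0 : ka G D (Sum.inr 0) = c2 G := rfl

lemma ka_succ (i : Fin N) : ka G D (Sum.inr i.succ) = ct G (X i) * c2 G := rfl

/-- from the cone -/
noncomputable def kF : LC G D →ₐ[R] G2 G :=
  pcLift _ _ (ka G D)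
    (by
      rintro (⟨m, i⟩ | g)
      · rw [bl, TT]
        split_ifs with h
        · rw [map_sub (bil (R := R) (Mon N D) (Fin (N + 1))), bil_bas, bil_bas, map_sub (aeval (R := R) (ka G D)),
            map_mul (aeval (R := R) (ka G D)), map_mul (aeval (R := R) (ka G D)), aeval_X, aeval_X, aeval_X,
            aeval_X, ka_succ, ka_0]
          change ct G (monomial m.1 1) * c1 G * _ -
            ct G (monomial (m.1 + Finsupp.single i 1) 1) * c1 G * _ = 0
          have h2 : (monomial (m.1 + Finsupp.single i 1) (1 : R)) = monomial m.1 1 * X i := by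
            rw [X, monomial_mul, one_mul]
          rw [h2, map_mul (ct G)]
          ring
        · rw [map_zero, map_zero]
      · rw [aeval_bl]
        have h2 : ∀ m : Mon N D, (∑ k, algebraMap R (G2 G) (TT (D := D) G (Sum.inr g) m k) *
            ka G D (Sum.inr k)) * ka G D (Sum.inl m) =
            (c1 G * c2 G) * (algebraMap R (G2 G) (coeff m.1 g.1) * ct G (monomial m.1 1)) := by
          intro m
          rw [Fin.sum_univ_succ]
          have h2 : ∀ k : Fin N, algebraMap R (G2 G) (TT (D := D) G (Sum.inr g) m k.succ) *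
              ka G D (Sum.inr k.succ) = 0 := by
            intro k
            rw [TT_inr, if_neg (Fin.succ_ne_zero k), map_zero, zero_mul]
          have h3 : TT (D := D) G (Sum.inr g) m 0 = coeff m.1 g.1 := by rw [TT_inr, if_pos rfl]
          rw [Finset.sum_congr rfl fun k _ => h2 k, Finset.sum_const_zero, add_zero, h3, ka_0]
          change _ * (ct G (monomial m.1 1) * c1 G) = _
          ring
        rw [Finset.sum_congr rfl fun m _ => h2 m, ← Finset.mul_sum,
          ← hom_eq_sum (ct G) g.1 (hd g.1 g.2), ct_rel, mul_zero])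
    (by
      rw [map_mul (aeval (R := R) (ka G D)), map_one (aeval (R := R) (ka G D)), uz, map_mul (aeval (R := R) (ka G D)),
        aeval_X, aeval_X, ka_mo, ka_0]
      exact isUnit_one.mul ((c1_unit G).mul (c2_unit G)))

/-- the values of the coordinates of the product -/
noncomputable def kb (D : ℕ) : (Fin N ⊕ Unit) ⊕ Unit → LC G D :=
  Sum.elim (Sum.elim (fun i => lo G D (X i)) fun _ => lu G (mo N D)) fun _ => lz G 0

lemma kb_inl (p : MvPolynomial (Fin N) R) :
    aeval (kb G D) (rename Sum.inl (rename Sum.inl p)) = lo G D p := by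
  have h : ((aeval (R := R) (kb G D)).comp (rename Sum.inl)).comp (rename Sum.inl) = lo G D := by
    apply MvPolynomial.algHom_ext
    intro t
    rw [AlgHom.comp_apply, AlgHom.comp_apply, rename_X, rename_X, aeval_X]
    rfl
  rw [← h]
  rfl

/-- to the cone -/
noncomputable def kG : G2 G →ₐ[R] LC G D :=
  pcLift _ _ (kb G D)
    (by
      intro g
      change aeval (kb G D) (rename Sum.inl (rename Sum.inl g.1)) = 0
      rw [kb_inl, lo_rel G hd])
    (by
      rw [map_mul (aeval (R := R) (kb G D)), map_mul (rename Sum.inl), map_mul (aeval (R := R) (kb G D)), kb_inl,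
        map_one (lo G D), xs, rename_X, aeval_X, xs, aeval_X]
      exact (isUnit_one.mul (l_units G).1).mul (l_units G).2)

lemma kF_lu (m : Mon N D) : kF G hd (lu G m) = ct G (monomial m.1 1) * c1 G :=
  pcLift_pv _ _ _ _ _ _

lemma kF_lz (k : Fin (N + 1)) : kF G hd (lz G k) = ka G D (Sum.inr k) :=
  pcLift_pv _ _ _ _ _ _

lemma kG_ct (p : MvPolynomial (Fin N) R) : kG G hd (ct G p) = lo G D p := by
  rw [← kb_inl]
  exact pcLift_pc _ _ _ _ _ _

lemma kG_c1 : kG G hd (c1 G) = lu G (mo N D) := pcLift_pv _ _ _ _ _ _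

lemma kG_c2 : kG G hd (c2 G) = lz G 0 := pcLift_pv _ _ _ _ _ _

lemma kF_zi : kF G hd (zi G) * c2 G = 1 := by
  have h := congrArg (kF G hd) (zi_mul (D := D) G)
  rw [map_mul (kF G hd), map_one (kF G hd), kF_lz, ka_0] at h
  rw [mul_comm]
  exact h

/-- The open part of the cone is the product of the closed subscheme with two multiplicative
groups. -/
noncomputable def kE : LC G D ≃ₐ[R] G2 G :=
  AlgEquiv.ofAlgHom (kF G hd) (kG G hd)
    (by
      apply pc_ext
      rintro ((i | u) | u)
      · change kF G hd (kG G hd (pv _ _ (Sum.inl (Sum.inl i)))) = pv _ _ (Sum.inl (Sum.inl i))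
        rw [← ct_X, kG_ct, lo_X, map_mul (kF G hd), kF_lz, ka_succ]
        linear_combination ct G (X i) * kF_zi G hd
      · change kF G hd (kG G hd (c1 G)) = c1 G
        have e : ct G (monomial (mo N D).1 1) = 1 := map_one _
        rw [kG_c1, kF_lu, e, one_mul]
      · change kF G hd (kG G hd (c2 G)) = c2 G
        rw [kG_c2, kF_lz, ka_0])
    (by
      apply pc_ext
      rintro (m | k)
      · change kG G hd (kF G hd (lu G m)) = lu G m
        rw [kF_lu, map_mul (kG G hd), kG_ct, kG_c1, lo_monomial G _ m.1 m.2 rfl]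
      · refine Fin.cases ?_ (fun i => ?_) k
        · change kG G hd (kF G hd (lz G 0)) = lz G 0
          rw [kF_lz, ka_0, kG_c2]
        · change kG G hd (kF G hd (lz G i.succ)) = lz G i.succ
          rw [kF_lz, ka_succ, map_mul (kG G hd), kG_ct, kG_c2, lo_X]
          linear_combination lz G i.succ * zi_mul (D := D) G)

end

end Pool.Agent.Z125.UN
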