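import Pool.Agent.H95.L.Z125_UN_Deh

/-!
# Every closed subscheme of an affine space is given by bilinear equations

Let `X` be a closed subscheme of the affine space of dimension `N`. There is a system of bilinear
forms in `u` and `z = (z_0, …, z_N)` such that the open part `u_0 z_0 ≠ 0` of its zero set is
`X × 𝔾_m × 𝔾_m`.
-/

set_option autoImplicit false

open CategoryTheory AlgebraicGeometry MvPolynomial Pool.Agent.Y116.UV

namespace Pool.Agent.Z125.UN

section torus

variable {R : Type} [CommRing R] {σ κ : Type} (G : κ → MvPolynomial σ R) (w : MvPolynomial σ R)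

/-- the product of a piece with the multiplicative group -/
abbrev Gm : Type := Pc (rl G Unit) (rename Sum.inl w * xs)

/-- the inclusion of the functions on the first factor -/
noncomputable def gi : Pc G w →ₐ[R] Gm G w :=
  pcLift _ _ (fun s => pv _ _ (Sum.inl s))
    (by
      intro k
      have h := pc_rel (rl G Unit) (rename Sum.inl w * xs) k
      rw [← pc_aeval] at h
      change aeval _ (rename Sum.inl (G k)) = 0 at h
      rw [aeval_rename] at h
      exact h)
    (by
      have h := pc_unit_left (rl G Unit) (rename Sum.inl w) xs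
      rw [← pc_aeval, aeval_rename] at h
      exact h)

lemma gi_pv (s : σ) : gi G w (pv _ _ s) = pv _ _ (Sum.inl s) := pcLift_pv _ _ _ _ _ _

/-- the coordinate of the multiplicative group -/
noncomputable def gs : Gm G w := pv _ _ (Sum.inr ())

lemma gs_unit : IsUnit (gs G w) := pc_unit_right (rl G Unit) (rename Sum.inl w) xs

/-- to the Laurent polynomials -/
noncomputable def gF : Gm G w →ₐ[R] LaurentPolynomial (Pc G w) :=
  pcLift _ _ (Sum.elim (fun s => IsScalarTower.toAlgHom R (Pc G w) (LaurentPolynomial (Pc G w))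
      (pv G w s)) fun _ => LaurentPolynomial.T 1)
    (by
      intro k
      rw [rl, aeval_rename, Sum.elim_comp_inl, aeval_pv_comp, pc_rel,
        map_zero (IsScalarTower.toAlgHom R (Pc G w) (LaurentPolynomial (Pc G w)))])
    (by
      rw [map_mul, aeval_rename, Sum.elim_comp_inl, aeval_pv_comp, xs, aeval_X]
      exact ((pc_unit G w).map _).mul (LaurentPolynomial.isUnit_T 1))

lemma gF_inl (s : σ) : gF G w (pv _ _ (Sum.inl s)) = LaurentPolynomial.C (pv G w s) :=
  pcLift_pv _ _ _ _ _ _

lemma gF_inr : gF G w (gs G w) = LaurentPolynomial.T 1 := pcLift_pv _ _ _ _ _ _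

/-- from the Laurent polynomials -/
noncomputable def gG : LaurentPolynomial (Pc G w) →+* Gm G w :=
  LaurentPolynomial.eval₂ (gi G w).toRingHom (gs_unit G w).unit

lemma gG_C (a : Pc G w) : gG G w (LaurentPolynomial.C a) = gi G w a := by
  rw [gG, LaurentPolynomial.eval₂_C]
  rfl

lemma gG_T : gG G w (LaurentPolynomial.T 1) = gs G w := by
  rw [gG, LaurentPolynomial.eval₂_T, zpow_one]
  rfl

lemma gF_gi (a : Pc G w) : gF G w (gi G w a) = LaurentPolynomial.C a := by
  have h : (gF G w).comp (gi G w) =
      IsScalarTower.toAlgHom R (Pc G w) (LaurentPolynomial (Pc G w)) := by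
    apply pc_ext
    intro s
    rw [AlgHom.comp_apply, gi_pv]
    exact gF_inl G w s
  exact congrArg (fun f : Pc G w →ₐ[R] _ => f a) h

lemma gF_gG : (gF G w).toRingHom.comp (gG G w) = RingHom.id _ := by
  apply laurent_hom_ext
  · intro a
    change gF G w (gG G w (LaurentPolynomial.C a)) = LaurentPolynomial.C a
    rw [gG_C, gF_gi]
  · change gF G w (gG G w (LaurentPolynomial.T 1)) = LaurentPolynomial.T 1
    rw [gG_T, gF_inr]

lemma gG_gF : (gG G w).comp (gF G w).toRingHom = RingHom.id _ := by
  apply pc_ringHom_ext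
  · intro r
    change gG G w (gF G w (algebraMap R _ r)) = algebraMap R _ r
    rw [AlgHom.commutes]
    have h : algebraMap R (LaurentPolynomial (Pc G w)) r =
        LaurentPolynomial.C (algebraMap R (Pc G w) r) := rfl
    rw [h, gG_C, AlgHom.commutes]
  · rintro (s | u)
    · change gG G w (gF G w (pv _ _ (Sum.inl s))) = pv _ _ (Sum.inl s)
      rw [gF_inl, gG_C, gi_pv]
    · change gG G w (gF G w (gs G w)) = gs G w
      rw [gF_inr, gG_T]

/-- Laurent polynomials over a piece -/
noncomputable def gE : Gm G w ≃ₐ[R] LaurentPolynomial (Pc G w) :=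
  AlgEquiv.ofRingEquiv (f := RingEquiv.ofRingHom (gF G w).toRingHom (gG G w) (gF_gG G w)
    (gG_gF G w)) (fun r => (gF G w).commutes r)

lemma pc_torus {sep : Prop} {P : Sch R → Prop} (hP : Bnd sep P) [Finite σ]
    (h : P (aff R (Gm G w))) : P (aff R (Pc G w)) :=
  hP.torus _ (iso_alg hP.toUni (gE G w) h)

end torus

end Pool.Agent.Z125.UN
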